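import Pool.Agent.Lib.Skew.Tower

/-!
# Almost every interval exchange has arbitrarily fine good towers
-/

open MeasureTheory Set

namespace SkewIET

variable {m : ℕ}

/-! ### Scaling -/

theorem pull1_smul (s : St m) (b : Bool) (t : ℝ) (l : Fin (m + 1) → ℝ) :
    pull1 s b (t • l) = t • pull1 s b l := by
  funext j
  by_cases hj : j = win s b
  · subst hj
    simp only [pull1_win, Pi.smul_apply, smul_eq_mul]
    ring
  · rw [pull1_of_ne _ hj, Pi.smul_apply, Pi.smul_apply, pull1_of_ne _ hj]

theorem pull_smul (w : List Bool) : ∀ (s : St m) (t : ℝ) (l : Fin (m + 1) → ℝ),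
    pull s w (t • l) = t • pull s w l := by
  induction w with
  | nil => intro s t l; rfl
  | cons b w ih =>
    intro s t l
    show pull1 s b (pull (nxt s b) w (t • l)) = t • pull1 s b (pull (nxt s b) w l)
    rw [ih, pull1_smul]

theorem fwd_smul (s : St m) (b : Bool) (t : ℝ) (l : Fin (m + 1) → ℝ) :
    fwd s b (t • l) = t • fwd s b l := by
  funext j
  by_cases hj : j = win s b
  · subst hj
    simp only [fwd_win, Pi.smul_apply, smul_eq_mul]
    ring
  · rw [fwd_of_ne _ hj, Pi.smul_apply, Pi.smul_apply, fwd_of_ne _ hj]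

theorem rtype_smul (s : St m) {t : ℝ} (ht : 0 < t) (l : Fin (m + 1) → ℝ) :
    rtype s (t • l) = rtype s l := by
  unfold rtype
  simp only [Pi.smul_apply, smul_eq_mul]
  congr 1
  rw [mul_lt_mul_iff_right₀ ht]

/-- Scaling the lengths. -/
def sc (t : ℝ) (x : Full m) : Full m := (x.1, x.2.1, t • x.2.2)

theorem rstep_sc {t : ℝ} (ht : 0 < t) (x : Full m) : rstep (sc t x) = sc t (rstep x) := by
  unfold rstep sc
  simp only [rtype_smul _ ht, fwd_smul]

theorem rstep_iterate_sc {t : ℝ} (ht : 0 < t) (k : ℕ) (x : Full m) :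
    rstep^[k] (sc t x) = sc t (rstep^[k] x) := by
  induction k generalizing x with
  | zero => rfl
  | succ k ih => rw [Function.iterate_succ_apply, rstep_sc ht, ih, Function.iterate_succ_apply]

theorem smul_mem_Pos {t : ℝ} (ht : 0 < t) {l : Fin (m + 1) → ℝ} (hl : l ∈ Pos m) :
    t • l ∈ Pos m := fun j => mul_pos ht (hl j)

theorem good_sc {C : ℝ} {γ : St m → List Bool} {t : ℝ} (ht : 0 < t) {x : Full m}
    (h : Good C γ x) : Good C γ (sc t x) := by
  refine ⟨h.1, ?_⟩
  obtain ⟨l, hl, hl2⟩ := h.2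
  exact ⟨t • l, smul_mem_Pos ht hl, by
    show pull x.1 (γ x.1) (t • l) = t • x.2.2
    rw [pull_smul, hl2]⟩

/-- The good set of length vectors. -/
def GoodSet (C : ℝ) (γ : St m → List Bool) (s : St m) (q : Fin (m + 1) → ℝ) :
    Set (Fin (m + 1) → ℝ) :=
  {l | ∀ K : ℕ, (rstep^[K] (s, q, l)).2.2 ∈ Pos m ∧
        ∃ k, Good C γ (rstep^[k] (rstep^[K] (s, q, l)))}

theorem goodSet_smul {C : ℝ} {γ : St m → List Bool} {s : St m} {q : Fin (m + 1) → ℝ} {t : ℝ}
    (ht : 0 < t) {l : Fin (m + 1) → ℝ} (hl : l ∈ GoodSet C γ s q) :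
    t • l ∈ GoodSet C γ s q := by
  intro K
  obtain ⟨h1, k, h2⟩ := hl K
  have e : ((s, q, t • l) : Full m) = sc t (s, q, l) := rfl
  rw [e, rstep_iterate_sc ht]
  refine ⟨smul_mem_Pos ht h1, k, ?_⟩
  rw [rstep_iterate_sc ht]
  exact good_sc ht h2

/-! ### From the cone to the simplex -/

theorem measurePreserving_cone (m : ℕ) : MeasurePreserving
    (fun p : ℝ × (Fin m → ℝ) => (Fin.snoc p.2 (p.1 - ∑ i, p.2 i) : Fin (m + 1) → ℝ))
    (volume.prod volume) volume := by
  have h1 : MeasurePreserving (fun p : (Fin m → ℝ) × ℝ => (p.1, p.2 - ∑ i, p.1 i))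
      ((volume : Measure (Fin m → ℝ)).prod (volume : Measure ℝ))
      ((volume : Measure (Fin m → ℝ)).prod (volume : Measure ℝ)) := by
    apply (MeasurePreserving.id (volume : Measure (Fin m → ℝ))).skew_product
      (g := fun x t => t - ∑ i, x i)
    · fun_prop
    · exact Filter.Eventually.of_forall fun x =>
        (measurePreserving_sub_right (volume : Measure ℝ) (∑ i, x i)).map_eq
  have h2 := ((volume_preserving_piFinSuccAbove (fun _ : Fin (m + 1) => ℝ)
    (Fin.last m)).symm _).comp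
    ((Measure.measurePreserving_swap (μ := (volume : Measure (Fin m → ℝ)))
      (ν := (volume : Measure ℝ))).comp (h1.comp
    (Measure.measurePreserving_swap (μ := (volume : Measure ℝ))
      (ν := (volume : Measure (Fin m → ℝ))))))
  have h3 : (fun p : ℝ × (Fin m → ℝ) =>
      (Fin.snoc p.2 (p.1 - ∑ i, p.2 i) : Fin (m + 1) → ℝ)) =
      (⇑(MeasurableEquiv.piFinSuccAbove (fun _ : Fin (m + 1) => ℝ) (Fin.last m)).symm ∘
      Prod.swap ∘ (fun p : (Fin m → ℝ) × ℝ => (p.1, p.2 - ∑ i, p.1 i)) ∘ Prod.swap) := by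
    funext p
    simp only [Function.comp_apply, Prod.swap_prod_mk, Prod.fst_swap, Prod.snd_swap]
    exact (Fin.insertNth_last' _ _).symm
  rw [h3]
  exact h2

theorem ae_simplex {A : Set (Fin (m + 1) → ℝ)} (hA : ∀ᵐ l ∂(volume.restrict (Pos m)), l ∈ A)
    (hsc : ∀ t : ℝ, 0 < t → ∀ l ∈ A, t • l ∈ A) :
    ∀ᵐ x ∂(volume.restrict (simplexCoord m)), simplexMap m x ∈ A := by
  rw [ae_restrict_iff' (measurableSet_Pos m)] at hA
  have h1 := (measurePreserving_cone m).quasiMeasurePreserving.ae hA
  have h2 := Measure.ae_ae_of_ae_prod h1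
  obtain ⟨t, ht0, ht⟩ : ∃ t : ℝ, 0 < t ∧ ∀ᵐ x : Fin m → ℝ,
      (Fin.snoc x (t - ∑ i, x i) : Fin (m + 1) → ℝ) ∈ Pos m →
      (Fin.snoc x (t - ∑ i, x i) : Fin (m + 1) → ℝ) ∈ A := by
    by_contra hcon
    have h3 : volume (Ioi (0 : ℝ)) = 0 := by
      refine measure_mono_null (fun t ht => ?_) h2
      exact fun h => hcon ⟨t, ht, h⟩
    simp at h3
  have hsimp : MeasurableSet (simplexCoord m) := by
    apply MeasurableSet.inter
    · have h5 : {x : Fin m → ℝ | ∀ i, 0 < x i} = Set.pi univ (fun _ => Ioi 0) := by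
        ext x; simp
      have h6 : MeasurableSet {x : Fin m → ℝ | ∀ i, 0 < x i} := by
        rw [h5]; exact MeasurableSet.univ_pi fun _ => measurableSet_Ioi
      exact h6
    · have h7 : MeasurableSet {x : Fin m → ℝ | ∑ i, x i < 1} :=
        measurableSet_lt (by fun_prop) measurable_const
      exact h7
  rw [ae_restrict_iff' hsimp]
  -- scale by t
  rw [ae_iff] at ht ⊢
  have h4 := Measure.addHaar_preimage_smul (volume : Measure (Fin m → ℝ)) ht0.ne'
    {x : Fin m → ℝ | ¬ ((Fin.snoc x (t - ∑ i, x i) : Fin (m + 1) → ℝ) ∈ Pos m →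
      (Fin.snoc x (t - ∑ i, x i) : Fin (m + 1) → ℝ) ∈ A)}
  rw [ht, mul_zero] at h4
  refine measure_mono_null ?_ h4
  intro x hx
  simp only [mem_ofPred_eq, mem_preimage] at hx ⊢
  push Not at hx ⊢
  obtain ⟨hx1, hx2⟩ := hx
  have hkey : (Fin.snoc (t • x) (t - ∑ i, (t • x) i) : Fin (m + 1) → ℝ) =
      t • simplexMap m x := by
    unfold simplexMap
    funext j
    refine Fin.lastCases ?_ (fun i => ?_) j
    · simp only [Fin.snoc_last, Pi.smul_apply, smul_eq_mul, mul_sub, mul_one, Finset.mul_sum]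
    · simp only [Fin.snoc_castSucc, Pi.smul_apply]
  have hpos : simplexMap m x ∈ Pos m := by
    intro j
    unfold simplexMap
    refine Fin.lastCases ?_ (fun i => ?_) j
    · rw [Fin.snoc_last]; linarith [hx1.2]
    · rw [Fin.snoc_castSucc]; exact hx1.1 i
  rw [hkey]
  refine ⟨smul_mem_Pos ht0 hpos, fun hmem => hx2 ?_⟩
  have := hsc t⁻¹ (inv_pos.2 ht0) _ hmem
  rwa [smul_smul, inv_mul_cancel₀ ht0.ne', one_smul] at this

theorem irr_of_irredPerm {p : Equiv.Perm (Fin (m + 1))} (hp : IrredPerm p) :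
    Irr ((Equiv.refl _, p) : St m) := by
  intro k hk hkm
  by_contra hcon
  push Not at hcon
  apply hp k hk (by omega)
  have hsub : p '' {i : Fin (m + 1) | (i : ℕ) < k} ⊆ {i : Fin (m + 1) | (i : ℕ) < k} := by
    rintro _ ⟨i, hi, rfl⟩
    exact hcon i hi
  exact Set.eq_of_subset_of_ncard_le hsub (by rw [Set.ncard_image_of_injective _ p.injective])

theorem sum_simplexMap (x : Fin m → ℝ) : ∑ j, simplexMap m x j = 1 := by
  unfold simplexMap
  rw [Fin.sum_univ_castSucc]
  simp

/-- **Almost every interval exchange transformation has arbitrarily fine good towers.** -/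
theorem aeGoodTowers (m : ℕ) (hm : 0 < m) : AEGoodTowers m := by
  intro p hp
  obtain ⟨C, hC, hae⟩ := ae_good m hm
  obtain ⟨γ, c, hc, hgt⟩ := exists_goodTower m hm hC
  have hirr := irr_of_irredPerm hp
  have h1 := hae γ _ hirr (lens (fun j : Fin (m + 1) => [j])) (fun j => by simp [lens])
  have h2 := ae_simplex (A := GoodSet C γ (Equiv.refl _, p) (lens (fun j : Fin (m + 1) => [j])))
    h1 (fun t ht l hl => goodSet_smul ht hl)
  filter_upwards [h2] with x hx
  exact ⟨c, hc, fun ε hε => hgt _ hirr _ (sum_simplexMap x) hx ε hε⟩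

/-! ### Measurability and invariance -/

theorem measurable_iet {n : ℕ} (pt pb : Equiv.Perm (Fin n)) (lam : Fin n → ℝ) :
    Measurable (iet pt pb lam) := by
  unfold iet
  apply measurable_id.add
  apply Finset.measurable_sum
  intro j _
  exact measurable_const.indicator measurableSet_Ico

theorem measurable_label {pt : Equiv.Perm (Fin (m + 1))} {lam : Fin (m + 1) → ℝ}
    (hl : ∀ j, 0 < lam j) : Measurable (label pt lam) := by
  apply measurable_to_countable'
  intro j
  have h1 : label pt lam ⁻¹' {j} = piece pt lam j ∪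
      (if j = 0 then (⋃ i, piece pt lam i)ᶜ else ∅) := by
    ext x
    simp only [mem_preimage, mem_singleton_iff, mem_union]
    by_cases hx : ∃ i, x ∈ piece pt lam i
    · obtain ⟨i, hi⟩ := hx
      rw [label_eq hl hi]
      constructor
      · rintro rfl; exact Or.inl hi
      · rintro (h | h)
        · exact piece_unique hl hi h
        · split_ifs at h
          · exact absurd (mem_iUnion.2 ⟨i, hi⟩) h
          · exact absurd h (notMem_empty x)
    · have hlab : label pt lam x = 0 := by unfold label; rw [dif_neg hx]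
      rw [hlab]
      have hnot : x ∉ piece pt lam j := fun h => hx ⟨j, h⟩
      constructor
      · rintro rfl
        right
        rw [if_pos rfl]
        simpa using hx
      · rintro (h | h)
        · exact absurd h hnot
        · split_ifs at h with h0
          · exact h0.symm
          · exact absurd h (notMem_empty x)
  rw [h1]
  apply MeasurableSet.union measurableSet_Ico
  split_ifs
  · exact (MeasurableSet.iUnion fun i => measurableSet_Ico).compl
  · exact MeasurableSet.empty

theorem iUnion_piece {n : ℕ} {p : Equiv.Perm (Fin n)} {lam : Fin n → ℝ} (hl : ∀ j, 0 < lam j) :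
    ⋃ j, piece p lam j = Ico 0 (∑ i, lam i) := by
  ext x
  rw [mem_iUnion]
  exact ⟨fun ⟨j, hj⟩ => piece_sub hl j hj, fun hx => exists_piece hl hx⟩

theorem measurePreserving_iet {n : ℕ} (pt pb : Equiv.Perm (Fin n)) {lam : Fin n → ℝ}
    (hl : ∀ j, 0 < lam j) : MeasurePreserving (iet pt pb lam)
      (volume.restrict (Ico 0 (∑ i, lam i))) (volume.restrict (Ico 0 (∑ i, lam i))) := by
  refine ⟨measurable_iet pt pb lam, ?_⟩
  ext B hB
  rw [Measure.map_apply (measurable_iet pt pb lam) hB,
    Measure.restrict_apply (measurable_iet pt pb lam hB), Measure.restrict_apply hB]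
  have hdisj : ∀ (p : Equiv.Perm (Fin n)) (S : Set ℝ),
      Pairwise (Function.onFun Disjoint fun j => S ∩ piece p lam j) := by
    intro p S i j hij
    exact (piece_disj hl hij).mono inter_subset_right inter_subset_right
  have e1 : iet pt pb lam ⁻¹' B ∩ Ico 0 (∑ i, lam i) =
      ⋃ j, iet pt pb lam ⁻¹' B ∩ piece pt lam j := by
    rw [← inter_iUnion, iUnion_piece hl]
  have e2 : B ∩ Ico 0 (∑ i, lam i) = ⋃ j, B ∩ piece pb lam j := by
    rw [← inter_iUnion, iUnion_piece hl]
  rw [e1, e2, measure_iUnion (hdisj pt _)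
    (fun j => (measurable_iet pt pb lam hB).inter measurableSet_Ico),
    measure_iUnion (hdisj pb _) (fun j => hB.inter measurableSet_Ico)]
  apply tsum_congr
  intro j
  have e3 : iet pt pb lam ⁻¹' B ∩ piece pt lam j =
      (fun x => x + (left pb lam j - left pt lam j)) ⁻¹' (B ∩ piece pb lam j) := by
    ext x
    simp only [mem_inter_iff, mem_preimage]
    constructor
    · rintro ⟨h1, h2⟩
      rw [iet_eq hl h2] at h1
      refine ⟨h1, ?_⟩
      obtain ⟨h3, h4⟩ := h2
      exact ⟨by linarith, by linarith⟩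
    · rintro ⟨h1, h2⟩
      have h3 : x ∈ piece pt lam j := by
        obtain ⟨h3, h4⟩ := h2
        exact ⟨by linarith, by linarith⟩
      exact ⟨by rw [iet_eq hl h3]; exact h1, h3⟩
  rw [e3, measure_preimage_add_right]

end SkewIET
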