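import Pool.Agent.Lib.Skew.Expo

/-!
# Almost every length vector has infinitely many good times
-/

open MeasureTheory Set

namespace SkewIET

variable {m : ℕ}

/-- state, heights, lengths -/
abbrev Full (m : ℕ) := St m × (Fin (m + 1) → ℝ) × (Fin (m + 1) → ℝ)

open Classical in
/-- The type of the step determined by the lengths. -/
noncomputable def rtype (s : St m) (l : Fin (m + 1) → ℝ) : Bool :=
  decide (l (botL s) < l (topL s))

/-- One step of Rauzy induction. -/
noncomputable def rstep (x : Full m) : Full m :=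
  (nxt x.1 (rtype x.1 x.2.2), upq x.1 (rtype x.1 x.2.2) x.2.1, fwd x.1 (rtype x.1 x.2.2) x.2.2)

theorem rtype_pull1 {s : St m} {b : Bool} (h : win s b ≠ los s b) {l : Fin (m + 1) → ℝ}
    (hl : l ∈ Pos m) : rtype s (pull1 s b l) = b := by
  have h1 : pull1 s b l (los s b) < pull1 s b l (win s b) := by
    rw [pull1_win, pull1_of_ne l h.symm]
    linarith [hl (win s b)]
  unfold rtype
  cases b
  · simp only [decide_eq_false_iff_not, not_lt]
    exact h1.le
  · simp only [decide_eq_true_eq]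
    exact h1

theorem rstep_pull1 {s : St m} {b : Bool} (h : win s b ≠ los s b) {l : Fin (m + 1) → ℝ}
    (hl : l ∈ Pos m) (q : Fin (m + 1) → ℝ) :
    rstep (s, q, pull1 s b l) = (nxt s b, upq s b q, l) := by
  unfold rstep
  simp only [rtype_pull1 h hl, fwd_pull1 h]

/-- The set of ties. -/
def tie (s : St m) : Set (Fin (m + 1) → ℝ) := {l | l ∈ Pos m ∧ l (topL s) = l (botL s)}

theorem volume_tie {s : St m} (h : topL s ≠ botL s) : volume (tie s) = 0 := by
  have h1 : tie s ⊆ (LinearMap.ker (LinearMap.proj (R := ℝ) (φ := fun _ : Fin (m + 1) => ℝ)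
      (topL s) - LinearMap.proj (botL s)) : Submodule ℝ (Fin (m + 1) → ℝ)) := by
    intro l hl
    simp only [SetLike.mem_coe, LinearMap.mem_ker, LinearMap.sub_apply, LinearMap.proj_apply]
    rw [hl.2, sub_self]
  refine measure_mono_null h1 (Measure.addHaar_submodule _ _ ?_)
  intro htop
  rw [LinearMap.ker_eq_top] at htop
  have := LinearMap.congr_fun htop (Pi.single (topL s) 1)
  simp [h] at this

/-- Decomposition of the orthant. -/
theorem exists_fwd {s : St m} (h : topL s ≠ botL s) {l : Fin (m + 1) → ℝ} (hl : l ∈ Pos m)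
    (ht : l ∉ tie s) : ∃ b, ∃ l' ∈ Pos m, l = pull1 s b l' := by
  have hne : ∀ b, win s b ≠ los s b := by
    intro b; cases b <;> [exact h.symm; exact h]
  have h1 : ∃ b, l (los s b) < l (win s b) := by
    rcases lt_trichotomy (l (botL s)) (l (topL s)) with h1 | h1 | h1
    · exact ⟨true, h1⟩
    · exact absurd ⟨hl, h1.symm⟩ ht
    · exact ⟨false, h1⟩
  obtain ⟨b, hb⟩ := h1
  refine ⟨b, fwd s b l, ?_, (pull1_fwd (hne b) l).symm⟩
  intro j
  by_cases hj : j = win s b
  · subst hj; rw [fwd_win]; linarith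
  · rw [fwd_of_ne l hj]; exact hl j

/-- The good event. -/
def Good (C : ℝ) (γ : St m → List Bool) (x : Full m) : Prop :=
  (∀ i j, x.2.1 i ≤ C * x.2.1 j) ∧ x.2.2 ∈ pull x.1 (γ x.1) '' Pos m

/-- The set of lengths which never see the good event. -/
def Never (C : ℝ) (γ : St m → List Bool) (s : St m) (q : Fin (m + 1) → ℝ) :
    Set (Fin (m + 1) → ℝ) :=
  {l | l ∈ Pos m ∧ ∀ k : ℕ, ¬ Good C γ (rstep^[k] (s, q, l))}

theorem never_sub_Pos (C : ℝ) (γ : St m → List Bool) (s : St m) (q : Fin (m + 1) → ℝ) :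
    Never C γ s q ⊆ Pos m := fun _ h => h.1

theorem never_pull1 {C : ℝ} {γ : St m → List Bool} {s : St m} {b : Bool}
    (h : win s b ≠ los s b) {q : Fin (m + 1) → ℝ} {l : Fin (m + 1) → ℝ} (hl : l ∈ Pos m)
    (hn : pull1 s b l ∈ Never C γ s q) : l ∈ Never C γ (nxt s b) (upq s b q) := by
  refine ⟨hl, fun k hk => hn.2 (k + 1) ?_⟩
  rw [Function.iterate_succ_apply, rstep_pull1 h hl]
  exact hk

theorem never_sub {C : ℝ} {γ : St m → List Bool} {s : St m} (h : topL s ≠ botL s)
    (q : Fin (m + 1) → ℝ) (b : Bool) (w : List Bool) :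
    Never C γ s q \ (pull s (b :: w) '' Pos m) ⊆
      pull1 s b '' (Never C γ (nxt s b) (upq s b q) \ (pull (nxt s b) w '' Pos m)) ∪
      (pull1 s (!b) '' Never C γ (nxt s (!b)) (upq s (!b) q) ∪ tie s) := by
  have hne : ∀ b, win s b ≠ los s b := by
    intro b; cases b <;> [exact h.symm; exact h]
  rintro l ⟨hl, hlw⟩
  by_cases ht : l ∈ tie s
  · exact Or.inr (Or.inr ht)
  obtain ⟨b', l', hl', rfl⟩ := exists_fwd h hl.1 ht
  by_cases hbb : b' = b
  · subst hbb
    left
    refine ⟨l', ⟨never_pull1 (hne b') hl' hl, ?_⟩, rfl⟩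
    rintro ⟨l'', hl'', rfl⟩
    exact hlw ⟨l'', hl'', rfl⟩
  · right; left
    have : b' = !b := by cases b <;> cases b' <;> simp_all
    subst this
    exact ⟨l', never_pull1 (hne _) hl' hl, rfl⟩

/-- Probability of a path. -/
noncomputable def Pw (s : St m) (q : Fin (m + 1) → ℝ) : List Bool → ℝ
  | [] => 1
  | b :: w => pr s b q * Pw (nxt s b) (upq s b q) w

theorem P_never_diff {C : ℝ} {γ : St m → List Bool} (hm : 0 < m) {V : ℝ}
    (hV : ∀ s, Irr s → ∀ q : Fin (m + 1) → ℝ, (∀ j, 0 < q j) → P q (Never C γ s q) ≤ V)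
    (w : List Bool) : ∀ s, Irr s → ∀ q : Fin (m + 1) → ℝ, (∀ j, 0 < q j) →
      P q (Never C γ s q \ (pull s w '' Pos m)) ≤ (1 - Pw s q w) * V := by
  induction w with
  | nil =>
    intro s _ q hq
    have : Never C γ s q \ (pull s [] '' Pos m) = ∅ := by
      ext l
      simp only [pull, mem_sdiff, mem_image, mem_empty_iff_false, iff_false, not_and, not_not]
      intro hl
      exact ⟨l, hl.1, rfl⟩
    rw [this]
    simp [P, Pw]
  | cons b w ih =>
    intro s hs q hq
    have h := topL_ne_botL hs hm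
    have hne : ∀ b, win s b ≠ los s b := win_ne_los hs hm
    have h1 := P_mono hq (never_sub (C := C) (γ := γ) h q b w)
    have h2 := P_union_le hq (pull1 s b '' (Never C γ (nxt s b) (upq s b q) \
      (pull (nxt s b) w '' Pos m)))
      (pull1 s (!b) '' Never C γ (nxt s (!b)) (upq s (!b) q) ∪ tie s)
    have h3 := P_union_le hq (pull1 s (!b) '' Never C γ (nxt s (!b)) (upq s (!b) q)) (tie s)
    have h4 : P q (tie s) = 0 := (P_eq_zero_iff hq (fun l hl => hl.1)).2 (volume_tie h)
    have h5 := P_image (hne b) hq (A := Never C γ (nxt s b) (upq s b q) \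
      (pull (nxt s b) w '' Pos m)) (sdiff_subset.trans (never_sub_Pos _ _ _ _))
    have h6 := P_image (hne (!b)) hq (A := Never C γ (nxt s (!b)) (upq s (!b) q))
      (never_sub_Pos _ _ _ _)
    have h7 := ih (nxt s b) (hs.nxt b) (upq s b q) (upq_pos hq)
    have h8 := hV (nxt s (!b)) (hs.nxt _) (upq s (!b) q) (upq_pos hq)
    have h9 := pr_add s b hq
    have h10 := pr_pos s b hq
    have h11 := pr_pos s (!b) hq
    have h12 : pr s b q * P (upq s b q) (Never C γ (nxt s b) (upq s b q) \
        (pull (nxt s b) w '' Pos m)) ≤ pr s b q * ((1 - Pw (nxt s b) (upq s b q) w) * V) := by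
      gcongr
    have h13 : pr s (!b) q * P (upq s (!b) q) (Never C γ (nxt s (!b)) (upq s (!b) q)) ≤
        pr s (!b) q * V := by gcongr
    have h14 : pr s (!b) q = 1 - pr s b q := by linarith
    calc P q (Never C γ s q \ (pull s (b :: w) '' Pos m))
        ≤ pr s b q * ((1 - Pw (nxt s b) (upq s b q) w) * V) + pr s (!b) q * V := by linarith
      _ = (1 - Pw s q (b :: w)) * V := by rw [h14, Pw]; ring

theorem Pw_ge (w : List Bool) : ∀ (s : St m) (q : Fin (m + 1) → ℝ) (D : ℝ), 1 ≤ D →
    (∀ j, 0 < q j) → (∀ i j, q i ≤ D * q j) →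
    (1 / (1 + D * 2 ^ w.length)) ^ w.length ≤ Pw s q w := by
  induction w with
  | nil => intro s q D _ _ _; simp [Pw]
  | cons b w ih =>
    intro s q D hD hq hqD
    have h1 := ih (nxt s b) (upq s b q) (2 * D) (by linarith) (upq_pos hq) (by
      intro i j
      have hj := upq_ge (s := s) (b := b) (fun j => (hq j).le) j
      by_cases hi : i = los s b
      · subst hi
        rw [upq_los]
        have := hqD (los s b) j
        have := hqD (win s b) j
        nlinarith
      · rw [upq_of_ne q hi]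
        have := hqD i j
        have := hq j
        nlinarith)
    have h2 : 1 / (1 + D) ≤ pr s b q := by
      unfold pr
      rw [div_le_div_iff₀ (by linarith) (add_pos (hq _) (hq _))]
      have := hqD (win s b) (los s b)
      linarith
    have h3 : (1 : ℝ) ≤ 2 ^ (w.length + 1) := one_le_pow₀ (by norm_num)
    have h4 : (1 + D) ≤ 1 + D * 2 ^ (w.length + 1) := by nlinarith
    have h5 : 1 / (1 + D * 2 ^ (w.length + 1)) ≤ 1 / (1 + D) :=
      one_div_le_one_div_of_le (by linarith) h4
    show (1 / (1 + D * 2 ^ (w.length + 1))) ^ (w.length + 1) ≤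
      pr s b q * Pw (nxt s b) (upq s b q) w
    have h6 : 2 * D * 2 ^ w.length = D * 2 ^ (w.length + 1) := by ring
    rw [h6] at h1
    have h7 : 0 ≤ 1 / (1 + D * 2 ^ (w.length + 1)) := by positivity
    calc (1 / (1 + D * 2 ^ (w.length + 1))) ^ (w.length + 1)
        = 1 / (1 + D * 2 ^ (w.length + 1)) * (1 / (1 + D * 2 ^ (w.length + 1))) ^ w.length := by
          ring
      _ ≤ pr s b q * Pw (nxt s b) (upq s b q) w :=
        mul_le_mul (h5.trans h2) h1 (by positivity) (pr_pos s b hq).le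

/-- Almost every length vector sees the good event. -/
theorem volume_never (m : ℕ) (hm : 0 < m) : ∃ C : ℝ, 1 ≤ C ∧ ∀ γ : St m → List Bool,
    ∀ s, Irr s → ∀ q : Fin (m + 1) → ℝ, (∀ j, 0 < q j) → volume (Never C γ s q) = 0 := by
  obtain ⟨C, ρ, hC, hρ, hρ1, hK⟩ := lemmaK m hm
  refine ⟨C, hC, fun γ => ?_⟩
  set S : Set ℝ := {x | ∃ s q, Irr s ∧ (∀ j, 0 < q j) ∧ x = P q (Never C γ s q)} with hS
  have hbdd : BddAbove S := ⟨1, by
    rintro x ⟨s, q, _, hq, rfl⟩
    exact P_le_one hq _⟩
  set V := sSup S with hVdef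
  have hV : ∀ s, Irr s → ∀ q : Fin (m + 1) → ℝ, (∀ j, 0 < q j) → P q (Never C γ s q) ≤ V :=
    fun s hs q hq => le_csSup hbdd ⟨s, q, hs, hq, rfl⟩
  set L := Finset.univ.sup (fun s : St m => (γ s).length) with hL
  set κ : ℝ := (1 / (1 + C * 2 ^ L)) ^ L with hκ
  have hκ0 : 0 < κ := by positivity
  have hmain : ∀ s, Irr s → ∀ q : Fin (m + 1) → ℝ, (∀ j, 0 < q j) →
      P q (Never C γ s q) ≤ (1 - ρ * κ) * V := by
    intro s0 hs0 q0 hq0
    have hV0 : 0 ≤ V := (P_nonneg hq0 _).trans (hV s0 hs0 q0 hq0)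
    have hsuper : SuperH (fun s q => V - P q (Never C γ s q)) := by
      refine ⟨fun s hs q hq => sub_nonneg.2 (hV s hs q hq), ?_⟩
      intro s hs q hq
      have h := topL_ne_botL hs hm
      have h0 := never_sub (C := C) (γ := γ) h q true []
      have h1 : Never C γ s q ⊆
          pull1 s true '' Never C γ (nxt s true) (upq s true q) ∪
          (pull1 s false '' Never C γ (nxt s false) (upq s false q) ∪ tie s) := by
        intro l hl
        by_cases ht : l ∈ tie s
        · exact Or.inr (Or.inr ht)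
        obtain ⟨b', l', hl', rfl⟩ := exists_fwd h hl.1 ht
        cases b'
        · exact Or.inr (Or.inl ⟨l', never_pull1 (win_ne_los hs hm _) hl' hl, rfl⟩)
        · exact Or.inl ⟨l', never_pull1 (win_ne_los hs hm _) hl' hl, rfl⟩
      have h2 := P_mono hq h1
      have h3 := P_union_le hq (pull1 s true '' Never C γ (nxt s true) (upq s true q))
        (pull1 s false '' Never C γ (nxt s false) (upq s false q) ∪ tie s)
      have h4 := P_union_le hq (pull1 s false '' Never C γ (nxt s false) (upq s false q)) (tie s)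
      have h5 : P q (tie s) = 0 := (P_eq_zero_iff hq (fun l hl => hl.1)).2 (volume_tie h)
      have h6 := P_image (win_ne_los hs hm true) hq
        (never_sub_Pos C γ (nxt s true) (upq s true q))
      have h7 := P_image (win_ne_los hs hm false) hq
        (never_sub_Pos C γ (nxt s false) (upq s false q))
      have h8 : pr s true q + pr s false q = 1 := pr_add s true hq
      have h9 : pr s true q * V + pr s false q * V = V := by rw [← add_mul, h8, one_mul]
      simp only [mul_sub]
      linarith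
    have hbal : ∀ s, Irr s → ∀ q : Fin (m + 1) → ℝ, (∀ j, 0 < q j) →
        (∀ i j, q i ≤ C * q j) → κ * V ≤ V - P q (Never C γ s q) := by
      intro s hs q hq hqC
      have h1 := P_never_diff hm hV (γ s) s hs q hq
      have h2 : Never C γ s q \ (pull s (γ s) '' Pos m) = Never C γ s q := by
        ext l
        constructor
        · intro hl; exact hl.1
        · intro hl
          exact ⟨hl, fun hl2 => hl.2 0 ⟨hqC, hl2⟩⟩
      rw [h2] at h1
      have h3 := Pw_ge (γ s) s q C hC hq hqC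
      have hlen : (γ s).length ≤ L := Finset.le_sup (f := fun s : St m => (γ s).length)
        (Finset.mem_univ s)
      have h4 : κ ≤ (1 / (1 + C * 2 ^ (γ s).length)) ^ (γ s).length := by
        have hp : (2 : ℝ) ^ (γ s).length ≤ 2 ^ L := pow_le_pow_right₀ (by norm_num) hlen
        have h5 : 1 / (1 + C * 2 ^ L) ≤ 1 / (1 + C * 2 ^ (γ s).length) := by
          apply one_div_le_one_div_of_le (by positivity)
          nlinarith
        calc κ ≤ (1 / (1 + C * 2 ^ L)) ^ (γ s).length := by
              apply pow_le_pow_of_le_one (by positivity) _ hlen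
              rw [div_le_one (by positivity)]
              have : 0 ≤ C * 2 ^ L := by positivity
              linarith
          _ ≤ _ := by gcongr
      have h6 : κ * V ≤ Pw s q (γ s) * V := by
        have := h4.trans h3
        gcongr
      linarith
    have := hK _ hsuper (κ * V) (by positivity) hbal s0 hs0 q0 hq0
    linarith
  intro s hs q hq
  have hne : S.Nonempty := ⟨_, s, q, hs, hq, rfl⟩
  have hVle : V ≤ (1 - ρ * κ) * V := by
    apply csSup_le hne
    rintro x ⟨s, q, hs, hq, rfl⟩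
    exact hmain s hs q hq
  have hV0 : V ≤ 0 := by
    have : 0 < ρ * κ := by positivity
    nlinarith
  have h1 : P q (Never C γ s q) = 0 :=
    le_antisymm ((hV s hs q hq).trans hV0) (P_nonneg hq _)
  exact (P_eq_zero_iff hq (never_sub_Pos _ _ _ _)).1 h1

/-- Null sets are preserved by the steps. -/
theorem null_rstep (hm : 0 < m) {Q : Full m → Prop}
    (hQ : ∀ s, Irr s → ∀ q : Fin (m + 1) → ℝ, (∀ j, 0 < q j) →
      volume {l | l ∈ Pos m ∧ ¬ Q (s, q, l)} = 0) :
    ∀ s, Irr s → ∀ q : Fin (m + 1) → ℝ, (∀ j, 0 < q j) →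
      volume {l | l ∈ Pos m ∧ ¬ Q (rstep (s, q, l))} = 0 := by
  intro s hs q hq
  have h := topL_ne_botL hs hm
  have hsub : {l | l ∈ Pos m ∧ ¬ Q (rstep (s, q, l))} ⊆
      (pull1 s true '' {l | l ∈ Pos m ∧ ¬ Q (nxt s true, upq s true q, l)} ∪
      pull1 s false '' {l | l ∈ Pos m ∧ ¬ Q (nxt s false, upq s false q, l)}) ∪ tie s := by
    rintro l ⟨hl, hlQ⟩
    by_cases ht : l ∈ tie s
    · exact Or.inr ht
    obtain ⟨b', l', hl', rfl⟩ := exists_fwd h hl ht
    rw [rstep_pull1 (win_ne_los hs hm b') hl'] at hlQ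
    left
    cases b'
    · exact Or.inr ⟨l', ⟨hl', hlQ⟩, rfl⟩
    · exact Or.inl ⟨l', ⟨hl', hlQ⟩, rfl⟩
  have himg : ∀ b, ∀ A : Set (Fin (m + 1) → ℝ), volume A = 0 →
      volume (pull1 s b '' A) = 0 := by
    intro b A hA
    have hne := win_ne_los hs hm b
    have := (pull1_measurePreserving hne).measure_preimage_emb (measurableEmbedding_pull1 hne)
      (pull1 s b '' A)
    rw [preimage_image_eq _ (measurableEmbedding_pull1 hne).injective] at this
    rw [← this]; exact hA
  refine measure_mono_null hsub (measure_union_null (measure_union_null ?_ ?_) (volume_tie h))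
  · exact himg true _ (hQ _ (hs.nxt true) _ (upq_pos hq))
  · exact himg false _ (hQ _ (hs.nxt false) _ (upq_pos hq))

theorem null_rstep_iterate (hm : 0 < m) {Q : Full m → Prop}
    (hQ : ∀ s, Irr s → ∀ q : Fin (m + 1) → ℝ, (∀ j, 0 < q j) →
      volume {l | l ∈ Pos m ∧ ¬ Q (s, q, l)} = 0) (k : ℕ) :
    ∀ s, Irr s → ∀ q : Fin (m + 1) → ℝ, (∀ j, 0 < q j) →
      volume {l | l ∈ Pos m ∧ ¬ Q (rstep^[k] (s, q, l))} = 0 := by
  induction k with
  | zero => exact hQ
  | succ k ih =>
    intro s hs q hq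
    have := null_rstep hm (Q := fun x => Q (rstep^[k] x)) ih s hs q hq
    simpa only [Function.iterate_succ_apply] using this

/-- **Almost every length vector has infinitely many good times.** -/
theorem ae_good (m : ℕ) (hm : 0 < m) : ∃ C : ℝ, 1 ≤ C ∧ ∀ γ : St m → List Bool,
    ∀ s, Irr s → ∀ q : Fin (m + 1) → ℝ, (∀ j, 0 < q j) →
      ∀ᵐ l ∂(volume.restrict (Pos m)), ∀ K : ℕ, (rstep^[K] (s, q, l)).2.2 ∈ Pos m ∧
        ∃ k, Good C γ (rstep^[k] (rstep^[K] (s, q, l))) := by
  obtain ⟨C, hC, hmain⟩ := volume_never m hm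
  refine ⟨C, hC, fun γ s hs q hq => ?_⟩
  rw [ae_all_iff]
  intro K
  have h1 := null_rstep_iterate hm (Q := fun x => x.2.2 ∈ Pos m ∧ ∃ k, Good C γ (rstep^[k] x))
    (fun s hs q hq => by
      refine measure_mono_null ?_ (hmain γ s hs q hq)
      rintro l ⟨hl, hl2⟩
      refine ⟨hl, fun k hk => hl2 ⟨hl, k, hk⟩⟩) K s hs q hq
  rw [ae_iff, Measure.restrict_apply' (measurableSet_Pos m)]
  refine measure_mono_null ?_ h1
  rintro l ⟨h2, h3⟩
  exact ⟨h3, h2⟩

end SkewIET
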