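import Mathlib

/-!
# Skew products over interval exchange transformations: basic definitions and interface

Shared by helper20 (interval exchanges, Rauzy induction) and helper64 (measure argument).
-/

open MeasureTheory Set

namespace SkewIET

/-! ### Interval exchange transformations -/

/-- Left end point of the interval with label `j`, when the intervals (of lengths `lam`)
are arranged in the order given by the positions `p`. -/
noncomputable def left {n : ℕ} (p : Equiv.Perm (Fin n)) (lam : Fin n → ℝ) (j : Fin n) : ℝ :=
  ∑ i ∈ Finset.univ.filter (fun i => p i < p j), lam i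

/-- The interval with label `j` in the arrangement `p`. -/
def piece {n : ℕ} (p : Equiv.Perm (Fin n)) (lam : Fin n → ℝ) (j : Fin n) : Set ℝ :=
  Ico (left p lam j) (left p lam j + lam j)

/-- The interval exchange: each interval of the arrangement `pt` is translated to its
place in the arrangement `pb`. Outside of the union of the intervals it is the identity. -/
noncomputable def iet {n : ℕ} (pt pb : Equiv.Perm (Fin n)) (lam : Fin n → ℝ) (x : ℝ) : ℝ :=
  x + ∑ j, (piece pt lam j).indicator (fun _ => left pb lam j - left pt lam j) x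

open Classical in
/-- The label of the interval of the arrangement `pt` which contains `x`
(and `0` if there is none). -/
noncomputable def label {m : ℕ} (pt : Equiv.Perm (Fin (m + 1))) (lam : Fin (m + 1) → ℝ)
    (x : ℝ) : Fin (m + 1) :=
  if h : ∃ j, x ∈ piece pt lam j then h.choose else 0

/-- Irreducibility of a permutation of `{0,...,m}`: no proper nonempty initial segment
is mapped to itself. -/
def IrredPerm {m : ℕ} (p : Equiv.Perm (Fin (m + 1))) : Prop :=
  ∀ k : ℕ, 0 < k → k < m + 1 →
    p '' {i : Fin (m + 1) | (i : ℕ) < k} ≠ {i : Fin (m + 1) | (i : ℕ) < k}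

/-- The open simplex `{x ∈ ℝ^m : x_i > 0, ∑ x_i < 1}`; it parametrizes the open simplex
`{lam ∈ ℝ^(m+1) : lam_i > 0, ∑ lam_i = 1}` by its first `m` coordinates. -/
def simplexCoord (m : ℕ) : Set (Fin m → ℝ) := {x | (∀ i, 0 < x i) ∧ ∑ i, x i < 1}

/-- The parametrization of the open simplex by its first `m` coordinates. -/
noncomputable def simplexMap (m : ℕ) (x : Fin m → ℝ) : Fin (m + 1) → ℝ :=
  Fin.snoc x (1 - ∑ i, x i)

/-! ### Words and Nielsen families -/

/-- Value of a word at a tuple; the first letter of the word acts first. -/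
def evalWord {G : Type*} [Group G] {n : ℕ} (g : Fin n → G) : List (Fin n) → G
  | [] => 1
  | j :: w => evalWord g w * g j

/-- Families of positive words obtained from the standard basis by Nielsen moves. -/
inductive NielsenFamily {n : ℕ} : (Fin n → List (Fin n)) → Prop
  | base : NielsenFamily (fun j => [j])
  | step {W : Fin n → List (Fin n)} (hW : NielsenFamily W) (a b l : Fin n) (hab : a ≠ b)
      (hl : l = a ∨ l = b) : NielsenFamily (Function.update W l (W a ++ W b))

/-! ### Good towers -/

/-- A tower structure for the map `T` of `[0,1)` with labelling `J`, over the base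
`[0,len)`, `len ≤ ε`, balanced with constant `c`. -/
structure GoodTower {n : ℕ} (T : ℝ → ℝ) (J : ℝ → Fin n) (c ε : ℝ) where
  /-- length of the base -/
  len : ℝ
  len_pos : 0 < len
  len_le : len ≤ ε
  len_le_one : len ≤ 1
  /-- number of rigid floors -/
  N : ℕ
  N_pos : 0 < N
  N_len : c ≤ N * len
  /-- return words -/
  W : Fin n → List (Fin n)
  nielsen : NielsenFamily W
  /-- left end points of the pieces of the base -/
  start : Fin n → ℝ
  /-- lengths of the pieces of the base -/
  width : Fin n → ℝ
  width_pos : ∀ j, 0 < width j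
  width_ge : ∀ j, c * len ≤ width j
  piece_sub : ∀ j, Ico (start j) (start j + width j) ⊆ Ico 0 len
  cover : ∀ x ∈ Ico 0 len, ∃ j, x ∈ Ico (start j) (start j + width j)
  disj : ∀ i j, i ≠ j → Disjoint (Ico (start i) (start i + width i))
    (Ico (start j) (start j + width j))
  N_le : ∀ j, N ≤ (W j).length
  length_le : ∀ j, c * (W j).length ≤ N
  /-- `T^i` is a translation on each piece up to the return time -/
  trans : ∀ j, ∀ i ≤ (W j).length, ∃ t : ℝ, ∀ x ∈ Ico (start j) (start j + width j),
    T^[i] x = x + t
  /-- the orbit stays in `[0,1)` -/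
  orbit_mem : ∀ j, ∀ x ∈ Ico (start j) (start j + width j), ∀ i ≤ (W j).length,
    T^[i] x ∈ Ico (0 : ℝ) 1
  /-- the labels along the orbit of a point of a piece are given by the word -/
  orbit_label : ∀ j, ∀ x ∈ Ico (start j) (start j + width j), ∀ i (hi : i < (W j).length),
    J (T^[i] x) = (W j)[i]
  /-- return to the base -/
  ret : ∀ j, ∀ x ∈ Ico (start j) (start j + width j), T^[(W j).length] x ∈ Ico 0 len
  /-- the return is the first return -/
  first_ret : ∀ j, ∀ x ∈ Ico (start j) (start j + width j), ∀ i, 0 < i →
    i < (W j).length → T^[i] x ∉ Ico 0 len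
  /-- rigidity of the first `N` floors -/
  rigid_trans : ∀ i ≤ N, ∃ t : ℝ, ∀ x ∈ Ico 0 len, T^[i] x = x + t
  rigid_label : ∀ i < N, ∀ x ∈ Ico 0 len, ∀ y ∈ Ico 0 len, J (T^[i] x) = J (T^[i] y)
  /-- the towers fill `[0,1)` -/
  total : ∑ j, ((W j).length : ℝ) * width j = 1

/-- The main result on interval exchanges: almost every interval exchange transformation
has arbitrarily fine good towers. -/
def AEGoodTowers (m : ℕ) : Prop :=
  ∀ p : Equiv.Perm (Fin (m + 1)), IrredPerm p →
    ∀ᵐ x ∂(volume.restrict (simplexCoord m)), ∃ c : ℝ, 0 < c ∧ ∀ ε : ℝ, 0 < ε →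
      Nonempty (GoodTower (iet (Equiv.refl _) p (simplexMap m x))
        (label (Equiv.refl _) (simplexMap m x)) c ε)

end SkewIET
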