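import Pool.Agent.Lib.Skew.Markov

/-!
# The exponential measures on the space of length vectors
-/

open MeasureTheory Set

namespace SkewIET

variable {m : ℕ}

/-- The open positive orthant. -/
def Pos (m : ℕ) : Set (Fin (m + 1) → ℝ) := {l | ∀ j, 0 < l j}

theorem pos_eq_pi (m : ℕ) : Pos m = Set.pi univ (fun _ => Ioi 0) := by
  ext l; simp [Pos]

theorem measurableSet_Pos (m : ℕ) : MeasurableSet (Pos m) := by
  rw [pos_eq_pi]
  exact MeasurableSet.univ_pi fun _ => measurableSet_Ioi

/-- Lengths after a step. -/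
noncomputable def fwd (s : St m) (b : Bool) (l : Fin (m + 1) → ℝ) : Fin (m + 1) → ℝ :=
  Function.update l (win s b) (l (win s b) - l (los s b))

theorem pull1_fwd {s : St m} {b : Bool} (h : win s b ≠ los s b) (l : Fin (m + 1) → ℝ) :
    pull1 s b (fwd s b l) = l := by
  funext j
  unfold pull1 fwd
  by_cases hj : j = win s b
  · subst hj
    simp [h.symm]
  · simp [hj]

theorem fwd_pull1 {s : St m} {b : Bool} (h : win s b ≠ los s b) (l : Fin (m + 1) → ℝ) :
    fwd s b (pull1 s b l) = l := by
  funext j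
  unfold pull1 fwd
  by_cases hj : j = win s b
  · subst hj
    simp [h.symm]
  · simp [hj]

theorem pull1_win (s : St m) (b : Bool) (l : Fin (m + 1) → ℝ) :
    pull1 s b l (win s b) = l (win s b) + l (los s b) := by simp [pull1]

theorem pull1_of_ne {s : St m} {b : Bool} (l : Fin (m + 1) → ℝ) {j : Fin (m + 1)}
    (h : j ≠ win s b) : pull1 s b l j = l j := by simp [pull1, h]

theorem fwd_win (s : St m) (b : Bool) (l : Fin (m + 1) → ℝ) :
    fwd s b l (win s b) = l (win s b) - l (los s b) := by simp [fwd]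

theorem fwd_of_ne {s : St m} {b : Bool} (l : Fin (m + 1) → ℝ) {j : Fin (m + 1)}
    (h : j ≠ win s b) : fwd s b l j = l j := by simp [fwd, h]

theorem pull1_mem_Pos {s : St m} {b : Bool} {l : Fin (m + 1) → ℝ} (hl : l ∈ Pos m) :
    pull1 s b l ∈ Pos m := by
  intro j
  by_cases hj : j = win s b
  · subst hj; rw [pull1_win]; exact add_pos (hl _) (hl _)
  · rw [pull1_of_ne l hj]; exact hl j

theorem continuous_pull1 (s : St m) (b : Bool) : Continuous (pull1 s b) := by
  unfold pull1
  exact continuous_id.update _ ((continuous_apply _).add (continuous_apply _))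

theorem continuous_fwd (s : St m) (b : Bool) : Continuous (fwd s b) := by
  unfold fwd
  exact continuous_id.update _ ((continuous_apply _).sub (continuous_apply _))

/-- `pull1` as a homeomorphism. -/
noncomputable def pull1Homeo (s : St m) (b : Bool) (h : win s b ≠ los s b) :
    (Fin (m + 1) → ℝ) ≃ₜ (Fin (m + 1) → ℝ) where
  toFun := pull1 s b
  invFun := fwd s b
  left_inv := fwd_pull1 h
  right_inv := pull1_fwd h
  continuous_toFun := continuous_pull1 s b
  continuous_invFun := continuous_fwd s b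

theorem measurableEmbedding_pull1 {s : St m} {b : Bool} (h : win s b ≠ los s b) :
    MeasurableEmbedding (pull1 s b) := (pull1Homeo s b h).measurableEmbedding

theorem pull1_measurePreserving {s : St m} {b : Bool} (h : win s b ≠ los s b) :
    MeasurePreserving (pull1 s b) volume volume := by
  have h1 := Real.volume_preserving_transvectionStruct
    (⟨win s b, los s b, h, 1⟩ : Matrix.TransvectionStruct (Fin (m + 1)) ℝ)
  have h2 : pull1 s b = ⇑(Matrix.toLin' (⟨win s b, los s b, h, 1⟩ :
      Matrix.TransvectionStruct (Fin (m + 1)) ℝ).toMatrix) := by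
    funext l j
    simp only [Matrix.toLin'_apply, Matrix.TransvectionStruct.toMatrix, Matrix.transvection,
      Matrix.add_mulVec, Matrix.one_mulVec, Pi.add_apply, Matrix.single_mulVec]
    by_cases hj : j = win s b
    · subst hj
      rw [pull1_win]; simp
    · rw [pull1_of_ne l hj]
      simp [hj]
  rw [h2]
  exact h1

/-- The unnormalised law of the lengths with rates `q`. -/
noncomputable def mu (q : Fin (m + 1) → ℝ) : Measure (Fin (m + 1) → ℝ) :=
  (volume.restrict (Pos m)).withDensity
    (fun l => ENNReal.ofReal (Real.exp (-(∑ j, q j * l j))))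

theorem measurable_dens (q : Fin (m + 1) → ℝ) : Measurable
    (fun l : Fin (m + 1) → ℝ => ENNReal.ofReal (Real.exp (-(∑ j, q j * l j)))) := by
  fun_prop

theorem image_pull1_subset (s : St m) (b : Bool) : pull1 s b '' Pos m ⊆ Pos m := by
  rintro _ ⟨l, hl, rfl⟩
  exact pull1_mem_Pos hl

theorem mu_map {s : St m} {b : Bool} (h : win s b ≠ los s b) (q : Fin (m + 1) → ℝ) :
    (mu (upq s b q)).map (pull1 s b) = (mu q).restrict (pull1 s b '' Pos m) := by
  have he := measurableEmbedding_pull1 h
  have him : MeasurableSet (pull1 s b '' Pos m) := he.measurableSet_image.2 (measurableSet_Pos m)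
  ext B hB
  rw [Measure.map_apply he.measurable hB, Measure.restrict_apply hB, mu, mu,
    withDensity_apply _ (he.measurable hB), withDensity_apply _ (hB.inter him),
    Measure.restrict_restrict (he.measurable hB), Measure.restrict_restrict (hB.inter him)]
  have h1 : B ∩ pull1 s b '' Pos m ∩ Pos m = B ∩ pull1 s b '' Pos m := by
    rw [inter_assoc, inter_eq_left.2 (image_pull1_subset s b)]
  have h2 : pull1 s b ⁻¹' (B ∩ pull1 s b '' Pos m) = pull1 s b ⁻¹' B ∩ Pos m := by
    rw [preimage_inter, preimage_image_eq _ he.injective]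
  have h3 := (pull1_measurePreserving h).setLIntegral_comp_preimage_emb he
    (fun l => ENNReal.ofReal (Real.exp (-(∑ j, q j * l j)))) (B ∩ pull1 s b '' Pos m)
  rw [h2] at h3
  rw [h1, ← h3]
  apply lintegral_congr
  intro l
  rw [dual1]

/-- The image of a set under a step backwards. -/
theorem mu_image {s : St m} {b : Bool} (h : win s b ≠ los s b) (q : Fin (m + 1) → ℝ)
    {A : Set (Fin (m + 1) → ℝ)} (hA : A ⊆ Pos m) :
    mu q (pull1 s b '' A) = mu (upq s b q) A := by
  have he := measurableEmbedding_pull1 h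
  have him : MeasurableSet (pull1 s b '' Pos m) := he.measurableSet_image.2 (measurableSet_Pos m)
  have h1 : (mu (upq s b q)).map (pull1 s b) (pull1 s b '' A) = mu (upq s b q) A := by
    rw [he.map_apply, preimage_image_eq _ he.injective]
  rw [← h1, mu_map h, Measure.restrict_apply' him, inter_eq_left.2 (image_mono hA)]

theorem mu_univ {q : Fin (m + 1) → ℝ} (hq : ∀ j, 0 < q j) :
    mu q univ = ENNReal.ofReal (∏ j, (q j)⁻¹) := by
  rw [mu, withDensity_apply _ MeasurableSet.univ, Measure.restrict_univ, pos_eq_pi, volume_pi,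
    Measure.restrict_pi_pi]
  have h1 : ∫ l : Fin (m + 1) → ℝ, ∏ j, Real.exp (-(q j * l j))
      ∂(Measure.pi fun _ : Fin (m + 1) => (volume : Measure ℝ).restrict (Ioi 0)) =
      ∏ j, (q j)⁻¹ := by
    rw [integral_fintype_prod_eq_prod (fun j x => Real.exp (-(q j * x)))]
    apply Finset.prod_congr rfl
    intro j _
    have := integral_exp_mul_Ioi (a := -q j) (by linarith [hq j]) 0
    simp only [neg_mul, mul_zero, Real.exp_zero] at this
    rw [this]
    have := (hq j).ne'
    field_simp
  have h2 : Integrable (fun l : Fin (m + 1) → ℝ => ∏ j, Real.exp (-(q j * l j)))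
      (Measure.pi fun _ : Fin (m + 1) => (volume : Measure ℝ).restrict (Ioi 0)) := by
    apply Integrable.of_integral_ne_zero
    rw [h1]
    exact Finset.prod_ne_zero_iff.2 fun j _ => inv_ne_zero (hq j).ne'
  rw [← h1, ofReal_integral_eq_lintegral_ofReal h2
    (Filter.Eventually.of_forall fun l => Finset.prod_nonneg fun j _ => (Real.exp_pos _).le)]
  apply lintegral_congr
  intro l
  rw [← Real.exp_sum, Finset.sum_neg_distrib]

theorem mu_lt_top {q : Fin (m + 1) → ℝ} (hq : ∀ j, 0 < q j) (A : Set (Fin (m + 1) → ℝ)) :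
    mu q A < ⊤ := by
  refine (measure_mono (subset_univ A)).trans_lt ?_
  rw [mu_univ hq]
  exact ENNReal.ofReal_lt_top

theorem mu_null_iff (q : Fin (m + 1) → ℝ) {A : Set (Fin (m + 1) → ℝ)} (hA : A ⊆ Pos m) :
    mu q A = 0 ↔ volume A = 0 := by
  have h0 : volume A = (volume.restrict (Pos m)) A := by
    rw [Measure.restrict_apply' (measurableSet_Pos m), inter_eq_left.2 hA]
  rw [h0]
  constructor
  · intro h
    have h1 : (volume.restrict (Pos m)) ≪ mu q := by
      apply withDensity_absolutelyContinuous' (measurable_dens q).aemeasurable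
      exact Filter.Eventually.of_forall fun l => by
        simp only [ne_eq, ENNReal.ofReal_eq_zero, not_le]
        exact Real.exp_pos _
    exact h1 h
  · intro h
    exact withDensity_absolutelyContinuous _ _ h

/-- The normalised (outer) law. -/
noncomputable def P (q : Fin (m + 1) → ℝ) (A : Set (Fin (m + 1) → ℝ)) : ℝ :=
  (∏ j, q j) * (mu q A).toReal

theorem prod_upq {s : St m} {b : Bool} {q : Fin (m + 1) → ℝ} (hq : ∀ j, 0 < q j) :
    ∏ j, q j = pr s b q * ∏ j, upq s b q j := by
  have h1 : ∀ j, upq s b q j = q j * (if j = los s b then (q (los s b) + q (win s b)) /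
      q (los s b) else 1) := by
    intro j
    by_cases h : j = los s b
    · subst h; rw [upq_los, if_pos rfl]
      have := (hq (los s b)).ne'
      field_simp
    · rw [upq_of_ne q h, if_neg h, mul_one]
  simp only [h1, Finset.prod_mul_distrib, Finset.prod_ite_eq', Finset.mem_univ, if_true]
  unfold pr
  have := (hq (los s b)).ne'
  have h3 : q (win s b) + q (los s b) ≠ 0 := (add_pos (hq _) (hq _)).ne'
  have h4 : q (los s b) + q (win s b) ≠ 0 := (add_pos (hq _) (hq _)).ne'
  rw [add_comm (q (los s b)) (q (win s b))]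
  field_simp

theorem P_image {s : St m} {b : Bool} (h : win s b ≠ los s b) {q : Fin (m + 1) → ℝ}
    (hq : ∀ j, 0 < q j) {A : Set (Fin (m + 1) → ℝ)} (hA : A ⊆ Pos m) :
    P q (pull1 s b '' A) = pr s b q * P (upq s b q) A := by
  unfold P
  rw [mu_image h q hA, prod_upq (s := s) (b := b) hq]
  ring

theorem P_mono {q : Fin (m + 1) → ℝ} (hq : ∀ j, 0 < q j) {A B : Set (Fin (m + 1) → ℝ)}
    (h : A ⊆ B) : P q A ≤ P q B := by
  unfold P
  have h1 : 0 ≤ ∏ j, q j := Finset.prod_nonneg fun j _ => (hq j).le
  exact mul_le_mul_of_nonneg_left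
    (ENNReal.toReal_mono (mu_lt_top hq B).ne (measure_mono h)) h1

theorem P_nonneg {q : Fin (m + 1) → ℝ} (hq : ∀ j, 0 < q j) (A : Set (Fin (m + 1) → ℝ)) :
    0 ≤ P q A :=
  mul_nonneg (Finset.prod_nonneg fun j _ => (hq j).le) ENNReal.toReal_nonneg

theorem P_le_one {q : Fin (m + 1) → ℝ} (hq : ∀ j, 0 < q j) (A : Set (Fin (m + 1) → ℝ)) :
    P q A ≤ 1 := by
  refine (P_mono hq (subset_univ A)).trans ?_
  unfold P
  rw [mu_univ hq, ENNReal.toReal_ofReal (Finset.prod_nonneg fun j _ => (inv_pos.2 (hq j)).le),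
    ← Finset.prod_mul_distrib]
  rw [Finset.prod_congr rfl (fun j _ => mul_inv_cancel₀ (hq j).ne')]
  simp

theorem P_union_le {q : Fin (m + 1) → ℝ} (hq : ∀ j, 0 < q j) (A B : Set (Fin (m + 1) → ℝ)) :
    P q (A ∪ B) ≤ P q A + P q B := by
  unfold P
  rw [← mul_add]
  apply mul_le_mul_of_nonneg_left _ (Finset.prod_nonneg fun j _ => (hq j).le)
  rw [← ENNReal.toReal_add (mu_lt_top hq A).ne (mu_lt_top hq B).ne]
  exact ENNReal.toReal_mono (ENNReal.add_ne_top.2 ⟨(mu_lt_top hq A).ne, (mu_lt_top hq B).ne⟩)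
    (measure_union_le A B)

theorem P_eq_zero_iff {q : Fin (m + 1) → ℝ} (hq : ∀ j, 0 < q j) {A : Set (Fin (m + 1) → ℝ)}
    (hA : A ⊆ Pos m) : P q A = 0 ↔ volume A = 0 := by
  rw [← mu_null_iff q hA]
  unfold P
  have h1 : (∏ j, q j) ≠ 0 := (Finset.prod_pos fun j _ => hq j).ne'
  rw [mul_eq_zero, or_iff_right h1, ENNReal.toReal_eq_zero_iff,
    or_iff_left (mu_lt_top hq A).ne]

end SkewIET
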