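import Pool.Agent.Lib.Skew.Expo

/-!
# Interval exchanges: basic properties, and one step of Rauzy induction
-/

open MeasureTheory Set

namespace SkewIET

section basic

variable {n : ℕ} {p pt pb : Equiv.Perm (Fin n)} {lam : Fin n → ℝ}

theorem left_nonneg (hl : ∀ j, 0 < lam j) (j : Fin n) : 0 ≤ left p lam j :=
  Finset.sum_nonneg fun i _ => (hl i).le

theorem left_add_le (hl : ∀ j, 0 < lam j) {i j : Fin n} (h : p i < p j) :
    left p lam i + lam i ≤ left p lam j := by
  unfold left
  have hi : i ∉ Finset.univ.filter (fun k => p k < p i) := by simp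
  rw [add_comm, ← Finset.sum_insert hi]
  apply Finset.sum_le_sum_of_subset_of_nonneg
  · intro k hk
    simp only [Finset.mem_insert, Finset.mem_filter, Finset.mem_univ, true_and] at hk ⊢
    rcases hk with rfl | hk
    · exact h
    · exact hk.trans h
  · intro k _ _
    exact (hl k).le

theorem left_add_le_tot (hl : ∀ j, 0 < lam j) (j : Fin n) :
    left p lam j + lam j ≤ ∑ i, lam i := by
  unfold left
  have hi : j ∉ Finset.univ.filter (fun k => p k < p j) := by simp
  rw [add_comm, ← Finset.sum_insert hi]
  exact Finset.sum_le_sum_of_subset_of_nonneg (Finset.subset_univ _) fun k _ _ => (hl k).le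

theorem left_succ {i j : Fin n} (h : (p j : ℕ) = p i + 1) :
    left p lam j = left p lam i + lam i := by
  unfold left
  have hi : i ∉ Finset.univ.filter (fun k => p k < p i) := by simp
  rw [add_comm, ← Finset.sum_insert hi]
  apply Finset.sum_congr _ fun _ _ => rfl
  ext k
  simp only [Finset.mem_insert, Finset.mem_filter, Finset.mem_univ, true_and, Fin.lt_def]
  constructor
  · intro hk
    rcases Nat.lt_or_ge (p k : ℕ) (p i) with h' | h'
    · exact Or.inr h'
    · left
      apply p.injective
      apply Fin.ext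
      omega
  · rintro (rfl | hk)
    · omega
    · omega

theorem left_last {j : Fin n} (h : (p j : ℕ) + 1 = n) :
    left p lam j + lam j = ∑ i, lam i := by
  unfold left
  have hi : j ∉ Finset.univ.filter (fun k => p k < p j) := by simp
  rw [add_comm, ← Finset.sum_insert hi]
  apply Finset.sum_congr _ fun _ _ => rfl
  ext k
  simp only [Finset.mem_insert, Finset.mem_filter, Finset.mem_univ, true_and, Fin.lt_def,
    iff_true]
  have := (p k).2
  rcases Nat.lt_or_ge (p k : ℕ) (p j) with h' | h'
  · exact Or.inr h'
  · left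
    apply p.injective
    apply Fin.ext
    omega

theorem left_first {j : Fin n} (h : (p j : ℕ) = 0) : left p lam j = 0 := by
  unfold left
  apply Finset.sum_eq_zero
  intro k hk
  simp only [Finset.mem_filter, Finset.mem_univ, true_and, Fin.lt_def] at hk
  omega

theorem piece_disj (hl : ∀ j, 0 < lam j) {i j : Fin n} (h : i ≠ j) :
    Disjoint (piece p lam i) (piece p lam j) := by
  rw [Set.disjoint_left]
  rintro x ⟨h1, h2⟩ ⟨h3, h4⟩
  rcases lt_trichotomy (p i) (p j) with h' | h' | h'
  · have := left_add_le hl h'; linarith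
  · exact h (p.injective h')
  · have := left_add_le hl h'; linarith

theorem piece_unique (hl : ∀ j, 0 < lam j) {i j : Fin n} {x : ℝ} (h1 : x ∈ piece p lam i)
    (h2 : x ∈ piece p lam j) : i = j := by
  by_contra h
  exact (Set.disjoint_left.1 (piece_disj hl h)) h1 h2

theorem piece_sub (hl : ∀ j, 0 < lam j) (j : Fin n) :
    piece p lam j ⊆ Ico 0 (∑ i, lam i) := by
  rintro x ⟨h1, h2⟩
  exact ⟨(left_nonneg hl j).trans h1, h2.trans_le (left_add_le_tot hl j)⟩

theorem exists_piece (hl : ∀ j, 0 < lam j) {x : ℝ} (hx : x ∈ Ico 0 (∑ i, lam i)) :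
    ∃ j, x ∈ piece p lam j := by
  classical
  have hn : 0 < n := by
    rcases Nat.eq_zero_or_pos n with h | h
    · subst h
      simp only [Finset.univ_eq_empty, Finset.sum_empty] at hx
      exact absurd (hx.1.trans_lt hx.2) (lt_irrefl _)
    · exact h
  have hne : (Finset.univ.filter (fun j => left p lam j ≤ x)).Nonempty := by
    refine ⟨p.symm ⟨0, hn⟩, ?_⟩
    simp only [Finset.mem_filter, Finset.mem_univ, true_and]
    rw [left_first (by simp)]
    exact hx.1
  obtain ⟨j, hj, hmax⟩ := Finset.exists_max_image _ (fun j => (p j : ℕ)) hne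
  simp only [Finset.mem_filter, Finset.mem_univ, true_and] at hj hmax
  refine ⟨j, hj, ?_⟩
  by_cases hlast : (p j : ℕ) + 1 = n
  · rw [left_last hlast]; exact hx.2
  · have hlt : (p j : ℕ) + 1 < n := by have := (p j).2; omega
    set j' := p.symm ⟨(p j : ℕ) + 1, hlt⟩ with hj'
    have hpj' : (p j' : ℕ) = p j + 1 := by simp [hj']
    rw [← left_succ hpj']
    by_contra hcon
    push Not at hcon
    have := hmax j' hcon
    omega

theorem iet_eq (hl : ∀ j, 0 < lam j) {j : Fin n} {x : ℝ} (hx : x ∈ piece pt lam j) :
    iet pt pb lam x = x + (left pb lam j - left pt lam j) := by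
  unfold iet
  rw [Finset.sum_eq_single j]
  · rw [indicator_of_mem hx]
  · intro i _ hij
    apply indicator_of_notMem
    intro hxi
    exact hij (piece_unique hl hxi hx)
  · simp

theorem iet_mem (hl : ∀ j, 0 < lam j) {j : Fin n} {x : ℝ} (hx : x ∈ piece pt lam j) :
    iet pt pb lam x ∈ piece pb lam j := by
  rw [iet_eq hl hx]
  obtain ⟨h1, h2⟩ := hx
  constructor <;> linarith

theorem iet_mem_Ico (hl : ∀ j, 0 < lam j) {x : ℝ} (hx : x ∈ Ico 0 (∑ i, lam i)) :
    iet pt pb lam x ∈ Ico 0 (∑ i, lam i) := by
  obtain ⟨j, hj⟩ := exists_piece (p := pt) hl hx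
  exact piece_sub hl j (iet_mem hl hj)

theorem iet_injOn (hl : ∀ j, 0 < lam j) : InjOn (iet pt pb lam) (Ico 0 (∑ i, lam i)) := by
  intro x hx y hy hxy
  obtain ⟨i, hi⟩ := exists_piece (p := pt) hl hx
  obtain ⟨j, hj⟩ := exists_piece (p := pt) hl hy
  have h1 := iet_mem (pb := pb) hl hi
  have h2 := iet_mem (pb := pb) hl hj
  rw [hxy] at h1
  have hij := piece_unique hl h1 h2
  subst hij
  rw [iet_eq hl hi, iet_eq hl hj] at hxy
  linarith

end basic

section label

variable {m : ℕ} {pt : Equiv.Perm (Fin (m + 1))} {lam : Fin (m + 1) → ℝ}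

theorem label_eq (hl : ∀ j, 0 < lam j) {j : Fin (m + 1)} {x : ℝ} (hx : x ∈ piece pt lam j) :
    label pt lam x = j := by
  have h : ∃ j, x ∈ piece pt lam j := ⟨j, hx⟩
  unfold label
  rw [dif_pos h]
  exact piece_unique hl h.choose_spec hx

end label

/-! ### One step of Rauzy induction -/

variable {m : ℕ}

theorem sum_pull1 (s : St m) (b : Bool) (l : Fin (m + 1) → ℝ) :
    ∑ j, pull1 s b l j = ∑ j, l j + l (los s b) := by
  have h1 : ∀ j, pull1 s b l j = l j + (if j = win s b then l (los s b) else 0) := by
    intro j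
    by_cases h : j = win s b
    · subst h; rw [pull1_win, if_pos rfl]
    · rw [pull1_of_ne l h, if_neg h, add_zero]
  simp only [h1, Finset.sum_add_distrib, Finset.sum_ite_eq', Finset.mem_univ, if_true]

theorem left_top_row (s : St m) (l : Fin (m + 1) → ℝ) (j : Fin (m + 1)) :
    left s.1 (pull1 s true l) j = left s.1 l j := by
  unfold left
  apply Finset.sum_congr rfl
  intro i hi
  simp only [Finset.mem_filter, Finset.mem_univ, true_and, Fin.lt_def] at hi
  apply pull1_of_ne
  rintro rfl
  have := topL_pos s
  have := (s.1 j).2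
  change (s.1 (topL s) : ℕ) < _ at hi
  omega

theorem left_bot_row {s : St m} (h : topL s ≠ botL s) (l : Fin (m + 1) → ℝ) {j : Fin (m + 1)}
    (hj : j ≠ botL s) : left (nextTop s).2 l j = left s.2 (pull1 s true l) j := by
  have hjm : (s.2 j : ℕ) ≠ m := fun h' => hj (eq_botL h')
  have hjm' := (s.2 j).2
  have hα := (s.2 (topL s)).2
  have hαm : (s.2 (topL s) : ℕ) ≠ m := fun h' => h (eq_botL h')
  have hβ := botL_pos s
  unfold left
  have h1 : ∀ i, pull1 s true l i = l i + (if i = topL s then l (botL s) else 0) := by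
    intro i
    by_cases h' : i = topL s
    · subst h'; rw [if_pos rfl]; exact pull1_win s true l
    · rw [if_neg h', add_zero]; exact pull1_of_ne l h'
  simp only [h1, Finset.sum_add_distrib, Finset.sum_ite_eq']
  by_cases hjp : (s.2 j : ℕ) ≤ s.2 (topL s)
  · rw [if_neg, add_zero]
    · apply Finset.sum_congr _ fun _ _ => rfl
      ext i
      simp only [Finset.mem_filter, Finset.mem_univ, true_and, Fin.lt_def, nextTop_snd_val]
      rw [if_pos hjp]
      split_ifs <;> omega
    · simp only [Finset.mem_filter, Finset.mem_univ, true_and, Fin.lt_def]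
      omega
  · rw [if_pos]
    · have hnot : botL s ∉ Finset.univ.filter (fun i => s.2 i < s.2 j) := by
        simp only [Finset.mem_filter, Finset.mem_univ, true_and, Fin.lt_def]
        omega
      rw [add_comm (∑ i ∈ Finset.univ.filter (fun i => s.2 i < s.2 j), l i) (l (botL s)),
        ← Finset.sum_insert hnot]
      apply Finset.sum_congr _ fun _ _ => rfl
      ext i
      simp only [Finset.mem_insert, Finset.mem_filter, Finset.mem_univ, true_and, Fin.lt_def,
        nextTop_snd_val]
      rw [if_neg hjp, if_neg hjm]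
      constructor
      · intro hi
        by_cases him : (s.2 i : ℕ) = m
        · left; exact eq_botL him
        · right
          split_ifs at hi <;> omega
      · rintro (rfl | hi)
        · rw [if_neg (by omega), if_pos hβ]; omega
        · split_ifs <;> omega
    · simp only [Finset.mem_filter, Finset.mem_univ, true_and, Fin.lt_def]
      omega

theorem left_bot_row_los {s : St m} (h : topL s ≠ botL s) (l : Fin (m + 1) → ℝ) :
    left (nextTop s).2 l (botL s) = left s.2 (pull1 s true l) (topL s) + l (topL s) := by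
  have hα := (s.2 (topL s)).2
  have hαm : (s.2 (topL s) : ℕ) ≠ m := fun h' => h (eq_botL h')
  have hβ := botL_pos s
  unfold left
  have h1 : ∀ i ∈ Finset.univ.filter (fun i => s.2 i < s.2 (topL s)), pull1 s true l i = l i := by
    intro i hi
    simp only [Finset.mem_filter, Finset.mem_univ, true_and, Fin.lt_def] at hi
    apply pull1_of_ne
    rintro rfl
    exact absurd hi (lt_irrefl _)
  rw [Finset.sum_congr rfl h1]
  have hnot : topL s ∉ Finset.univ.filter (fun i => s.2 i < s.2 (topL s)) := by simp
  rw [add_comm (Finset.sum _ _) (l (topL s)), ← Finset.sum_insert hnot]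
  apply Finset.sum_congr _ fun _ _ => rfl
  ext i
  simp only [Finset.mem_insert, Finset.mem_filter, Finset.mem_univ, true_and, Fin.lt_def,
    nextTop_snd_val]
  rw [if_neg (by omega : ¬ (s.2 (botL s) : ℕ) ≤ s.2 (topL s)), if_pos hβ]
  constructor
  · intro hi
    by_cases hia : i = topL s
    · left; exact hia
    · right
      have : (s.2 i : ℕ) ≠ s.2 (topL s) := fun h' => hia (s.2.injective (Fin.ext h'))
      split_ifs at hi <;> omega
  · rintro (rfl | hi)
    · rw [if_pos le_rfl]; omega
    · rw [if_pos hi.le]; omega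

/-- All the positions after a step. -/
theorem left_nxt {s : St m} (h : topL s ≠ botL s) (b : Bool) (l : Fin (m + 1) → ℝ)
    (j : Fin (m + 1)) :
    (j ≠ los s b → left (nxt s b).1 l j = left s.1 (pull1 s b l) j ∧
      left (nxt s b).2 l j = left s.2 (pull1 s b l) j) ∧
    (b = true → left (nxt s b).1 l j = left s.1 (pull1 s b l) j ∧
      left (nxt s b).2 l (los s b) = left s.2 (pull1 s b l) (topL s) + l (topL s)) ∧
    (b = false → left (nxt s b).2 l j = left s.2 (pull1 s b l) j ∧
      left (nxt s b).1 l (los s b) = left s.1 (pull1 s b l) (botL s) + l (botL s)) := by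
  cases b
  · have h' : topL s.swap ≠ botL s.swap := h.symm
    have e1 : pull1 s.swap true l = pull1 s false l := rfl
    have r1 := left_top_row s.swap l j
    have r2 := left_bot_row_los h' l
    rw [e1] at r1 r2
    refine ⟨fun hj => ?_, fun hb => (by simp at hb), fun _ => ⟨r1.symm, r2⟩⟩
    have r3 := left_bot_row h' l (j := j) hj
    rw [e1] at r3
    exact ⟨r3, r1.symm⟩
  · have r1 := left_top_row s l j
    have r2 := left_bot_row_los h l
    refine ⟨fun hj => ?_, fun _ => ⟨r1.symm, r2⟩, fun hb => (by simp at hb)⟩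
    exact ⟨r1.symm, left_bot_row h l (j := j) hj⟩

/-- The dynamics of one step of Rauzy induction. -/
theorem step_dyn {s : St m} (h : topL s ≠ botL s) (b : Bool) {l : Fin (m + 1) → ℝ}
    (hl : l ∈ Pos m) {j : Fin (m + 1)} {x : ℝ} (hx : x ∈ piece (nxt s b).1 l j) :
    (j ≠ los s b → x ∈ piece s.1 (pull1 s b l) j ∧
      iet s.1 s.2 (pull1 s b l) x = iet (nxt s b).1 (nxt s b).2 l x) ∧
    (j = los s b → x ∈ piece s.1 (pull1 s b l) (botL s) ∧
      iet s.1 s.2 (pull1 s b l) x ∈ piece s.1 (pull1 s b l) (topL s) ∧
      ∑ i, l i ≤ iet s.1 s.2 (pull1 s b l) x ∧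
      iet s.1 s.2 (pull1 s b l) (iet s.1 s.2 (pull1 s b l) x) =
        iet (nxt s b).1 (nxt s b).2 l x) := by
  have hl' : ∀ i, 0 < pull1 s b l i := pull1_mem_Pos hl
  have hx' := iet_eq (pb := (nxt s b).2) hl hx
  have hle : ∀ i, l i ≤ pull1 s b l i := by
    intro i
    by_cases hi : i = win s b
    · subst hi; rw [pull1_win]; linarith [hl (los s b)]
    · rw [pull1_of_ne l hi]
  obtain ⟨hA, hB, hC⟩ := left_nxt h b l j
  have htot := sum_pull1 s b l
  have ht1 : left s.1 (pull1 s b l) (topL s) + pull1 s b l (topL s) = ∑ i, pull1 s b l i :=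
    left_last (by rw [topL_pos])
  have ht2 : left s.2 (pull1 s b l) (botL s) + pull1 s b l (botL s) = ∑ i, pull1 s b l i :=
    left_last (by rw [botL_pos])
  obtain ⟨hx1, hx2⟩ := hx
  constructor
  · intro hj
    obtain ⟨h1, h2⟩ := hA hj
    have hxp : x ∈ piece s.1 (pull1 s b l) j := by
      refine ⟨by rw [← h1]; exact hx1, ?_⟩
      rw [← h1]
      linarith [hle j]
    refine ⟨hxp, ?_⟩
    rw [iet_eq hl' hxp, hx', h1, h2]
  · intro hj
    subst hj
    cases b
    · -- bottom wins; loser is the top letter
      obtain ⟨h1, h2⟩ := hC rfl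
      have hw : pull1 s false l (botL s) = l (botL s) + l (topL s) := pull1_win s false l
      have hlo : pull1 s false l (topL s) = l (topL s) := pull1_of_ne l h
      change left (nxt s false).2 l (topL s) = left s.2 (pull1 s false l) (topL s) at h1
      change left (nxt s false).1 l (topL s) =
        left s.1 (pull1 s false l) (botL s) + l (botL s) at h2
      change left (nxt s false).1 l (topL s) ≤ x at hx1
      change x < left (nxt s false).1 l (topL s) + l (topL s) at hx2
      change iet _ _ l x = x + (left (nxt s false).2 l (topL s) -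
        left (nxt s false).1 l (topL s)) at hx'
      change ∑ j, pull1 s false l j = ∑ j, l j + l (topL s) at htot
      have p1 := hl (botL s)
      have hxp : x ∈ piece s.1 (pull1 s false l) (botL s) := ⟨by linarith, by linarith⟩
      have e1 := iet_eq (pb := s.2) hl' hxp
      have hxq : iet s.1 s.2 (pull1 s false l) x ∈ piece s.1 (pull1 s false l) (topL s) :=
        ⟨by rw [e1]; linarith, by rw [e1]; linarith⟩
      have e2 := iet_eq (pb := s.2) hl' hxq
      refine ⟨hxp, hxq, by rw [e1]; linarith, ?_⟩
      rw [e2, hx', e1]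
      linarith
    · -- top wins; loser is the bottom letter
      obtain ⟨h1, h2⟩ := hB rfl
      have hw : pull1 s true l (topL s) = l (topL s) + l (botL s) := pull1_win s true l
      have hlo : pull1 s true l (botL s) = l (botL s) := pull1_of_ne l h.symm
      change left (nxt s true).1 l (botL s) = left s.1 (pull1 s true l) (botL s) at h1
      change left (nxt s true).2 l (botL s) =
        left s.2 (pull1 s true l) (topL s) + l (topL s) at h2
      change left (nxt s true).1 l (botL s) ≤ x at hx1
      change x < left (nxt s true).1 l (botL s) + l (botL s) at hx2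
      change iet _ _ l x = x + (left (nxt s true).2 l (botL s) -
        left (nxt s true).1 l (botL s)) at hx'
      change ∑ j, pull1 s true l j = ∑ j, l j + l (botL s) at htot
      have p1 := hl (topL s)
      have hxp : x ∈ piece s.1 (pull1 s true l) (botL s) := ⟨by linarith, by linarith⟩
      have e1 := iet_eq (pb := s.2) hl' hxp
      have hxq : iet s.1 s.2 (pull1 s true l) x ∈ piece s.1 (pull1 s true l) (topL s) :=
        ⟨by rw [e1]; linarith, by rw [e1]; linarith⟩
      have e2 := iet_eq (pb := s.2) hl' hxq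
      refine ⟨hxp, hxq, by rw [e1]; linarith, ?_⟩
      rw [e2, hx', e1]
      linarith

end SkewIET
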