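import Pool.Agent.Lib.Skew.Rauzy

/-!
# Rauzy induction: evolution of the heights, and a lower bound for superharmonic functions
-/

open Finset

namespace SkewIET

variable {m : ℕ}

/-- Evolution of the heights. -/
noncomputable def upq (s : St m) (b : Bool) (q : Fin (m + 1) → ℝ) : Fin (m + 1) → ℝ :=
  Function.update q (los s b) (q (los s b) + q (win s b))

/-- Lengths before a step from the lengths after the step. -/
noncomputable def pull1 (s : St m) (b : Bool) (l : Fin (m + 1) → ℝ) : Fin (m + 1) → ℝ :=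
  Function.update l (win s b) (l (win s b) + l (los s b))

/-- The end of a path. -/
noncomputable def endSt (s : St m) : List Bool → St m
  | [] => s
  | b :: w => endSt (nxt s b) w

/-- Evolution of the heights along a path. -/
noncomputable def qPath (s : St m) : List Bool → (Fin (m + 1) → ℝ) → (Fin (m + 1) → ℝ)
  | [], q => q
  | b :: w, q => qPath (nxt s b) w (upq s b q)

/-- Lengths at the beginning of a path from lengths at the end. -/
noncomputable def pull (s : St m) : List Bool → (Fin (m + 1) → ℝ) → (Fin (m + 1) → ℝ)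
  | [], l => l
  | b :: w, l => pull1 s b (pull (nxt s b) w l)

theorem upq_los (s : St m) (b : Bool) (q : Fin (m + 1) → ℝ) :
    upq s b q (los s b) = q (los s b) + q (win s b) := by simp [upq]

theorem upq_of_ne {s : St m} {b : Bool} (q : Fin (m + 1) → ℝ) {j : Fin (m + 1)}
    (h : j ≠ los s b) : upq s b q j = q j := by simp [upq, h]

theorem upq_ge {s : St m} {b : Bool} {q : Fin (m + 1) → ℝ} (hq : ∀ j, 0 ≤ q j)
    (j : Fin (m + 1)) : q j ≤ upq s b q j := by
  by_cases h : j = los s b
  · subst h; rw [upq_los]; linarith [hq (win s b)]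
  · rw [upq_of_ne q h]

theorem upq_pos {s : St m} {b : Bool} {q : Fin (m + 1) → ℝ} (hq : ∀ j, 0 < q j)
    (j : Fin (m + 1)) : 0 < upq s b q j :=
  (hq j).trans_le (upq_ge (fun j => (hq j).le) j)

theorem upq_nonneg {s : St m} {b : Bool} {q : Fin (m + 1) → ℝ} (hq : ∀ j, 0 ≤ q j)
    (j : Fin (m + 1)) : 0 ≤ upq s b q j :=
  (hq j).trans (upq_ge hq j)

theorem qPath_ge (w : List Bool) : ∀ {s : St m} {q : Fin (m + 1) → ℝ}, (∀ j, 0 ≤ q j) →
    ∀ j, q j ≤ qPath s w q j := by
  induction w with
  | nil => intro s q _ j; exact le_rfl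
  | cons b w ih =>
    intro s q hq j
    exact (upq_ge hq j).trans (ih (upq_nonneg hq) j)

theorem qPath_pos (w : List Bool) {s : St m} {q : Fin (m + 1) → ℝ} (hq : ∀ j, 0 < q j)
    (j : Fin (m + 1)) : 0 < qPath s w q j :=
  (hq j).trans_le (qPath_ge w (fun j => (hq j).le) j)

theorem endSt_append (u w : List Bool) : ∀ s : St m, endSt s (u ++ w) = endSt (endSt s u) w := by
  induction u with
  | nil => intro s; rfl
  | cons b u ih => intro s; exact ih _

theorem qPath_append (u w : List Bool) : ∀ (s : St m) (q : Fin (m + 1) → ℝ),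
    qPath s (u ++ w) q = qPath (endSt s u) w (qPath s u q) := by
  induction u with
  | nil => intro s q; rfl
  | cons b u ih => intro s q; exact ih _ _

theorem Irr.endSt (w : List Bool) : ∀ {s : St m}, Irr s → Irr (endSt s w) := by
  induction w with
  | nil => intro s h; exact h
  | cons b w ih => intro s h; exact ih (h.nxt b)

/-- Duality between heights and lengths. -/
theorem dual1 (s : St m) (b : Bool) (q l : Fin (m + 1) → ℝ) :
    ∑ j, upq s b q j * l j = ∑ j, q j * pull1 s b l j := by
  have h1 : ∀ j, upq s b q j * l j = q j * l j +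
      (if j = los s b then q (win s b) * l (los s b) else 0) := by
    intro j
    by_cases h : j = los s b
    · subst h; rw [upq_los, if_pos rfl]; ring
    · rw [upq_of_ne q h, if_neg h]; ring
  have h2 : ∀ j, q j * pull1 s b l j = q j * l j +
      (if j = win s b then q (win s b) * l (los s b) else 0) := by
    intro j
    by_cases h : j = win s b
    · subst h; simp [pull1]; ring
    · simp [pull1, h]
  simp only [h1, h2, Finset.sum_add_distrib, Finset.sum_ite_eq', Finset.mem_univ, if_true]

theorem dual (w : List Bool) : ∀ (s : St m) (q l : Fin (m + 1) → ℝ),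
    ∑ j, qPath s w q j * l j = ∑ j, q j * pull s w l j := by
  induction w with
  | nil => intro s q l; rfl
  | cons b w ih =>
    intro s q l
    show ∑ j, qPath (nxt s b) w (upq s b q) j * l j = ∑ j, q j * pull1 s b (pull (nxt s b) w l) j
    rw [ih, dual1]

/-! ### Positive paths -/

/-- A set which is the set of positive, or of zero, heights. -/
def PZ (X : Set (Fin (m + 1))) (q : Fin (m + 1) → ℝ) : Prop :=
  (∀ j, j ∈ X ↔ 0 < q j) ∨ (∀ j, j ∈ X ↔ q j = 0)

theorem PZ.upq {X : Set (Fin (m + 1))} {q : Fin (m + 1) → ℝ} (h : PZ X q) (hq : ∀ j, 0 ≤ q j)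
    {s : St m} {b : Bool} (ht : topL s ∈ X) (hb : botL s ∈ X) :
    PZ X (upq s b q) ∧ (∀ j, 0 < SkewIET.upq s b q j ↔ 0 < q j) := by
  have hw : win s b ∈ X := by cases b <;> [exact hb; exact ht]
  have hl : los s b ∈ X := by cases b <;> [exact ht; exact hb]
  rcases h with h | h
  · have key : ∀ j, 0 < SkewIET.upq s b q j ↔ 0 < q j := by
      intro j
      by_cases hj : j = los s b
      · subst hj
        rw [upq_los]
        have := (h _).1 hl
        have := (h _).1 hw
        constructor
        · intro _; assumption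
        · intro _; linarith
      · rw [upq_of_ne q hj]
    exact ⟨Or.inl fun j => (h j).trans (key j).symm, key⟩
  · have hval : SkewIET.upq s b q = q := by
      funext j
      by_cases hj : j = los s b
      · subst hj
        rw [upq_los, (h _).1 hw, add_zero]
      · rw [upq_of_ne q hj]
    rw [hval]
    exact ⟨Or.inr h, fun _ => Iff.rfl⟩

theorem steer_growth {X : Set (Fin (m + 1))} {s : St m} {w : List Bool} (hw : Steer X s w) :
    ∀ {q : Fin (m + 1) → ℝ}, PZ X q → (∀ j, 0 ≤ q j) →
      (∀ j, 0 < qPath s w q j ↔ 0 < q j) ∧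
      ∃ b, 0 < qPath s w q (win (endSt s w) b) ∧ ¬ 0 < qPath s w q (los (endSt s w) b) := by
  induction hw with
  | @done s h =>
    intro q hX hq
    refine ⟨fun _ => Iff.rfl, ?_⟩
    have hz : ∀ j, ¬ 0 < q j ↔ q j = 0 := fun j =>
      ⟨fun h => le_antisymm (not_lt.1 h) (hq j), fun h => by rw [h]; exact lt_irrefl 0⟩
    rcases hX with hX | hX
    · rcases h with ⟨h1, h2⟩ | ⟨h1, h2⟩
      · exact ⟨true, (hX _).1 h1, fun h => h2 ((hX _).2 h)⟩
      · exact ⟨false, (hX _).1 h2, fun h => h1 ((hX _).2 h)⟩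
    · rcases h with ⟨h1, h2⟩ | ⟨h1, h2⟩
      · refine ⟨false, ?_, (hz _).2 ((hX _).1 h1)⟩
        by_contra hcon
        exact h2 ((hX _).2 ((hz _).1 hcon))
      · refine ⟨true, ?_, (hz _).2 ((hX _).1 h2)⟩
        by_contra hcon
        exact h1 ((hX _).2 ((hz _).1 hcon))
  | @cons s b w ht hb _ ih =>
    intro q hX hq
    obtain ⟨h1, h2⟩ := hX.upq hq (b := b) ht hb
    obtain ⟨h3, h4⟩ := ih h1 (upq_nonneg hq)
    exact ⟨fun j => (h3 j).trans (h2 j), h4⟩

open Classical in
theorem exists_growth (hm : 0 < m) (k : ℕ) : ∀ {s : St m}, Irr s → ∀ {q : Fin (m + 1) → ℝ},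
    (∀ j, 0 ≤ q j) → (∃ j, 0 < q j) → (univ.filter (fun j => ¬ 0 < q j)).card ≤ k →
    ∃ w, ∀ j, 0 < qPath s w q j := by
  induction k with
  | zero =>
    intro s _ q _ _ hk
    refine ⟨[], fun j => ?_⟩
    by_contra hcon
    have : j ∈ univ.filter (fun j => ¬ 0 < q j) := by simpa [qPath] using hcon
    rw [Finset.card_eq_zero.1 (Nat.le_zero.1 hk)] at this
    simp at this
  | succ k ih =>
    intro s hs q hq hpos hk
    by_cases hall : ∀ j, 0 < q j
    · exact ⟨[], hall⟩
    push Not at hall
    obtain ⟨j0, hj0⟩ := hall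
    obtain ⟨j1, hj1⟩ := hpos
    have hj0' : q j0 = 0 := le_antisymm hj0 (hq _)
    -- the steering word
    have hst : ∃ X : Set (Fin (m + 1)), PZ X q ∧ ∃ w, Steer X s w := by
      by_cases htop : 0 < q (topL s)
      · refine ⟨{j | 0 < q j}, Or.inl fun _ => Iff.rfl, ?_⟩
        exact exists_steer hs hm (Or.inl htop) (j := j0) (by simp [hj0'])
      · refine ⟨{j | q j = 0}, Or.inr fun _ => Iff.rfl, ?_⟩
        exact exists_steer hs hm (Or.inl (le_antisymm (not_lt.1 htop) (hq _))) (j := j1)
          (by simpa using hj1.ne')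
    obtain ⟨X, hX, w, hw⟩ := hst
    obtain ⟨h1, b, hb1, hb2⟩ := steer_growth hw hX hq
    set s1 := endSt s w with hs1
    set q1 := qPath s w q with hq1
    have hs1i : Irr s1 := hs.endSt w
    have hq1n : ∀ j, 0 ≤ q1 j := fun j => (hq j).trans (qPath_ge w hq j)
    have hq2n : ∀ j, 0 ≤ upq s1 b q1 j := upq_nonneg hq1n
    have hcard : (univ.filter (fun j => ¬ 0 < upq s1 b q1 j)).card ≤ k := by
      have hsub : univ.filter (fun j => ¬ 0 < upq s1 b q1 j) ⊂
          univ.filter (fun j => ¬ 0 < q j) := by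
        refine Finset.ssubset_iff_subset_ne.2 ⟨?_, ?_⟩
        · intro j hj
          simp only [mem_filter, mem_univ, true_and] at hj ⊢
          intro h
          exact hj (((h1 j).2 h).trans_le (upq_ge hq1n j))
        · intro heq
          have h2 : los s1 b ∈ univ.filter (fun j => ¬ 0 < q j) := by
            simp only [mem_filter, mem_univ, true_and]
            intro h
            exact hb2 ((h1 _).2 h)
          rw [← heq] at h2
          simp only [mem_filter, mem_univ, true_and, upq_los] at h2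
          exact h2 (by linarith [hq1n (los s1 b)])
      have := Finset.card_lt_card hsub
      omega
    obtain ⟨w2, hw2⟩ := ih (hs1i.nxt b) hq2n
      ⟨j1, ((h1 j1).2 hj1).trans_le (upq_ge hq1n j1)⟩ hcard
    refine ⟨w ++ (b :: w2), fun j => ?_⟩
    rw [qPath_append]
    exact hw2 j

theorem exists_pos_path_aux {s : St m} (hs : Irr s) (hm : 0 < m) (F : Finset (Fin (m + 1))) :
    ∃ w, ∀ i ∈ F, ∀ j, 0 < qPath s w (Pi.single i 1) j := by
  classical
  induction F using Finset.induction_on with
  | empty => exact ⟨[], by simp⟩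
  | insert i F _ ih =>
    obtain ⟨w, hw⟩ := ih
    have hn : ∀ j, (0 : ℝ) ≤ (Pi.single i 1 : Fin (m + 1) → ℝ) j := by
      intro j
      by_cases h : j = i
      · subst h; simp
      · simp [h]
    obtain ⟨w2, hw2⟩ := exists_growth hm (m + 1) (hs.endSt w)
      (q := qPath s w (Pi.single i 1)) (fun j => (hn j).trans (qPath_ge w hn j))
      ⟨i, lt_of_lt_of_le (by simp) (qPath_ge w hn i)⟩
      ((Finset.card_le_univ _).trans (by simp))
    refine ⟨w ++ w2, fun i' hi' j => ?_⟩
    rw [qPath_append]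
    rcases Finset.mem_insert.1 hi' with rfl | h
    · exact hw2 j
    · exact qPath_pos w2 (hw i' h) j

/-- **Positive paths.** -/
theorem exists_pos_path {s : St m} (hs : Irr s) (hm : 0 < m) :
    ∃ w, ∀ i j, 0 < qPath s w (Pi.single i 1) j := by
  obtain ⟨w, hw⟩ := exists_pos_path_aux hs hm univ
  exact ⟨w, fun i j => hw i (mem_univ i) j⟩

/-! ### Superharmonic functions -/

/-- The probability that the step is of type `b`. -/
noncomputable def pr (s : St m) (b : Bool) (q : Fin (m + 1) → ℝ) : ℝ :=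
  q (los s b) / (q (win s b) + q (los s b))

theorem pr_add (s : St m) (b : Bool) {q : Fin (m + 1) → ℝ} (hq : ∀ j, 0 < q j) :
    pr s b q + pr s (!b) q = 1 := by
  unfold pr
  rw [win_not, los_not]
  have h1 := hq (win s b)
  have h2 := hq (los s b)
  field_simp
  ring

theorem pr_pos (s : St m) (b : Bool) {q : Fin (m + 1) → ℝ} (hq : ∀ j, 0 < q j) :
    0 < pr s b q := div_pos (hq _) (add_pos (hq _) (hq _))

/-- Nonnegative superharmonic functions. -/
structure SuperH (h : St m → (Fin (m + 1) → ℝ) → ℝ) : Prop where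
  nonneg : ∀ s, Irr s → ∀ q, (∀ j, 0 < q j) → 0 ≤ h s q
  super : ∀ s, Irr s → ∀ q, (∀ j, 0 < q j) →
    pr s true q * h (nxt s true) (upq s true q) +
      pr s false q * h (nxt s false) (upq s false q) ≤ h s q

theorem SuperH.super' {h : St m → (Fin (m + 1) → ℝ) → ℝ} (hh : SuperH h) {s : St m} (hs : Irr s)
    {q : Fin (m + 1) → ℝ} (hq : ∀ j, 0 < q j) (b : Bool) :
    pr s b q * h (nxt s b) (upq s b q) +
      pr s (!b) q * h (nxt s (!b)) (upq s (!b) q) ≤ h s q := by
  have := hh.super s hs q hq
  cases b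
  · simpa [add_comm] using this
  · simpa using this

theorem SuperH.super1 {h : St m → (Fin (m + 1) → ℝ) → ℝ} (hh : SuperH h) {s : St m} (hs : Irr s)
    {q : Fin (m + 1) → ℝ} (hq : ∀ j, 0 < q j) (b : Bool) :
    pr s b q * h (nxt s b) (upq s b q) ≤ h s q := by
  have h1 := hh.super' hs hq b
  have h2 : 0 ≤ pr s (!b) q * h (nxt s (!b)) (upq s (!b) q) :=
    mul_nonneg (pr_pos s (!b) hq).le (hh.nonneg _ (hs.nxt _) _ (upq_pos hq))
  linarith

/-- The set of large heights. -/
noncomputable def big (M : ℝ) (q : Fin (m + 1) → ℝ) : Finset (Fin (m + 1)) :=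
  univ.filter (fun j => M ≤ q j)

theorem mem_big {M : ℝ} {q : Fin (m + 1) → ℝ} {j : Fin (m + 1)} : j ∈ big M q ↔ M ≤ q j := by
  simp [big]

/-- The sum of the large heights. -/
noncomputable def bigSum (M : ℝ) (q : Fin (m + 1) → ℝ) : ℝ := ∑ j ∈ big M q, q j

theorem le_bigSum {M : ℝ} {q : Fin (m + 1) → ℝ} (hq : ∀ j, 0 < q j) {j : Fin (m + 1)}
    (hj : M ≤ q j) : q j ≤ bigSum M q :=
  Finset.single_le_sum (f := q) (fun i _ => (hq i).le) (mem_big.2 hj)

theorem sum_upq (s : St m) (b : Bool) (q : Fin (m + 1) → ℝ) :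
    ∑ j, upq s b q j = ∑ j, q j + q (win s b) := by
  have h1 : ∀ j, upq s b q j = q j + (if j = los s b then q (win s b) else 0) := by
    intro j
    by_cases h : j = los s b
    · subst h; rw [upq_los, if_pos rfl]
    · rw [upq_of_ne q h, if_neg h, add_zero]
  simp only [h1, Finset.sum_add_distrib, Finset.sum_ite_eq', Finset.mem_univ, if_true]

/-- The step estimate in the main phase, small winner. -/
theorem phaseC_step {h : St m → (Fin (m + 1) → ℝ) → ℝ} (hm : 0 < m) {k : ℕ}
    {M L c δ : ℝ} (hM : 0 < M) (hL : M ≤ L) (hc : 0 ≤ c)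
    (hsucc : ∀ s, Irr s → ∀ q, (∀ j, 0 < q j) → k + 1 ≤ (big M q).card →
      (∀ j, q j ≤ L + M) → c ≤ h s q) (hδ : 0 < δ) {N : ℕ}
    (ih : ∀ s : St m, Irr s → ∀ q : Fin (m + 1) → ℝ, (∀ j, δ ≤ q j) → (big M q).card = k →
      (q (topL s) < M ∨ q (botL s) < M) → L + (m + 1) * M ≤ ∑ j, q j + N * δ →
      c * (1 - bigSum M q / L) ≤ h s q)
    {s : St m} (hs : Irr s) {q : Fin (m + 1) → ℝ} (hq : ∀ j, δ ≤ q j)
    (hcard : (big M q).card = k) (hsum : L + (m + 1) * M ≤ ∑ j, q j + (N + 1 : ℕ) * δ)
    (hSL : bigSum M q < L) {b : Bool} (hwb : q (win s b) < M) :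
    c * (1 - (bigSum M q + (if M ≤ q (los s b) then q (win s b) else 0)) / L) ≤
      h (nxt s b) (upq s b q) := by
  have hL0 : 0 < L := hM.trans_le hL
  have hq0 : ∀ j, 0 < q j := fun j => hδ.trans_le (hq j)
  have hne := win_ne_los hs hm b
  have hwq : upq s b q (win s b) = q (win s b) := upq_of_ne q hne
  have hS0 : 0 ≤ bigSum M q := Finset.sum_nonneg fun j _ => (hq0 j).le
  have hplay : upq s b q (topL (nxt s b)) < M ∨ upq s b q (botL (nxt s b)) < M := by
    rcases win_mem_play s b with h' | h'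
    · left; rw [← h', hwq]; exact hwb
    · right; rw [← h', hwq]; exact hwb
  have hsum' : L + (m + 1) * M ≤ ∑ j, upq s b q j + N * δ := by
    rw [sum_upq]
    have := hq (win s b)
    push_cast at hsum
    linarith
  have hq' : ∀ j, δ ≤ upq s b q j := fun j => (hq j).trans (upq_ge (fun j => (hq0 j).le) j)
  by_cases hlb : M ≤ q (los s b)
  · rw [if_pos hlb]
    have hbig : big M (upq s b q) = big M q := by
      ext j
      rw [mem_big, mem_big]
      by_cases hj : j = los s b
      · subst hj; rw [upq_los]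
        exact ⟨fun _ => hlb, fun h' => h'.trans (by linarith [hq0 (win s b)])⟩
      · rw [upq_of_ne q hj]
    have hbs : bigSum M (upq s b q) = bigSum M q + q (win s b) := by
      unfold bigSum
      rw [hbig]
      have h1 : ∀ j ∈ big M q, upq s b q j = q j + (if j = los s b then q (win s b) else 0) := by
        intro j _
        by_cases h : j = los s b
        · subst h; rw [upq_los, if_pos rfl]
        · rw [upq_of_ne q h, if_neg h, add_zero]
      rw [Finset.sum_congr rfl h1, Finset.sum_add_distrib, Finset.sum_ite_eq',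
        if_pos (mem_big.2 hlb)]
    have := ih (nxt s b) (hs.nxt b) (upq s b q) hq' (by rw [hbig]; exact hcard) hplay hsum'
    rwa [hbs] at this
  · rw [if_neg hlb, add_zero]
    push Not at hlb
    by_cases hnew : M ≤ q (los s b) + q (win s b)
    · have hbig : big M (upq s b q) = insert (los s b) (big M q) := by
        ext j
        rw [mem_big, Finset.mem_insert, mem_big]
        by_cases hj : j = los s b
        · subst hj; rw [upq_los]; simp [hnew]
        · rw [upq_of_ne q hj]; simp [hj]
      have hnot : los s b ∉ big M q := by rw [mem_big]; exact not_le.2 hlb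
      have h1 := hsucc (nxt s b) (hs.nxt b) (upq s b q) (upq_pos hq0)
        (by rw [hbig, Finset.card_insert_of_notMem hnot, hcard]) (by
          intro j
          by_cases hj : j = los s b
          · subst hj; rw [upq_los]; linarith
          · rw [upq_of_ne q hj]
            by_cases hjM : M ≤ q j
            · have := le_bigSum hq0 hjM; linarith
            · push Not at hjM; linarith)
      have h2 : c * (1 - bigSum M q / L) ≤ c := by
        have : 0 ≤ bigSum M q / L := by positivity
        nlinarith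
      exact h2.trans h1
    · push Not at hnew
      have hbig : big M (upq s b q) = big M q := by
        ext j
        rw [mem_big, mem_big]
        by_cases hj : j = los s b
        · subst hj; rw [upq_los]
          exact ⟨fun h' => absurd h' (not_le.2 hnew), fun h' => absurd h' (not_le.2 hlb)⟩
        · rw [upq_of_ne q hj]
      have hbs : bigSum M (upq s b q) = bigSum M q := by
        unfold bigSum
        rw [hbig]
        apply Finset.sum_congr rfl
        intro j hj
        apply upq_of_ne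
        rintro rfl
        exact absurd (mem_big.1 hj) (not_le.2 hlb)
      have := ih (nxt s b) (hs.nxt b) (upq s b q) hq' (by rw [hbig]; exact hcard) hplay hsum'
      rwa [hbs] at this

/-- The main phase: a small letter is involved in the current play. -/
theorem phaseC {h : St m → (Fin (m + 1) → ℝ) → ℝ} (hh : SuperH h) (hm : 0 < m) {k : ℕ}
    {M L c δ : ℝ} (hM : 0 < M) (hL : M ≤ L) (hc : 0 ≤ c)
    (hsucc : ∀ s, Irr s → ∀ q, (∀ j, 0 < q j) → k + 1 ≤ (big M q).card →
      (∀ j, q j ≤ L + M) → c ≤ h s q) (hδ : 0 < δ) (N : ℕ) :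
    ∀ s : St m, Irr s → ∀ q : Fin (m + 1) → ℝ, (∀ j, δ ≤ q j) → (big M q).card = k →
      (q (topL s) < M ∨ q (botL s) < M) → L + (m + 1) * M ≤ ∑ j, q j + N * δ →
      c * (1 - bigSum M q / L) ≤ h s q := by
  have hL0 : 0 < L := hM.trans_le hL
  -- trivial case
  have htriv : ∀ s : St m, Irr s → ∀ q : Fin (m + 1) → ℝ, (∀ j, 0 < q j) → L ≤ bigSum M q →
      c * (1 - bigSum M q / L) ≤ h s q := by
    intro s hs q hq hS
    have h1 : 1 ≤ bigSum M q / L := by rw [le_div_iff₀ hL0]; linarith
    have h2 := hh.nonneg s hs q hq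
    nlinarith
  induction N with
  | zero =>
    intro s hs q hq _ _ hsum
    have hq0 : ∀ j, 0 < q j := fun j => hδ.trans_le (hq j)
    apply htriv s hs q hq0
    -- total = big + small
    have h1 : ∑ j, q j ≤ bigSum M q + (m + 1) * M := by
      have h2 : ∀ j, q j ≤ (if M ≤ q j then q j else 0) + M := by
        intro j
        split_ifs with h'
        · linarith
        · push Not at h'; linarith
      calc ∑ j, q j ≤ ∑ j, ((if M ≤ q j then q j else 0) + M) := Finset.sum_le_sum fun j _ => h2 j
        _ = bigSum M q + (m + 1) * M := by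
          rw [Finset.sum_add_distrib, Finset.sum_const, bigSum, big, Finset.sum_filter]
          simp
    push_cast at hsum
    linarith
  | succ N ih =>
    intro s hs q hq hcard hplay hsum
    have hq0 : ∀ j, 0 < q j := fun j => hδ.trans_le (hq j)
    by_cases hSL : L ≤ bigSum M q
    · exact htriv s hs q hq0 hSL
    push Not at hSL
    obtain ⟨b, hb⟩ : ∃ b, q (win s b) < M := by
      rcases hplay with h' | h'
      · exact ⟨true, h'⟩
      · exact ⟨false, h'⟩
    have hS0 : 0 ≤ bigSum M q := Finset.sum_nonneg fun j _ => (hq0 j).le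
    have h1 := phaseC_step hm hM hL hc hsucc hδ ih hs hq hcard hsum hSL hb
    have hsup := hh.super' hs hq0 b
    have hpb := pr_pos s b hq0
    have hpb' := pr_pos s (!b) hq0
    have hpp := pr_add s b hq0
    by_cases hlb : M ≤ q (los s b)
    · rw [if_pos hlb] at h1
      -- large loser
      have hne := win_ne_los hs hm (!b)
      have hbig : big M (upq s (!b) q) = insert (win s b) (big M q) := by
        ext j
        rw [mem_big, Finset.mem_insert, mem_big]
        by_cases hj : j = win s b
        · subst hj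
          rw [← los_not, upq_los, win_not, los_not]
          simp only [true_or, iff_true]
          linarith [hq0 (win s b)]
        · rw [← los_not] at hj
          rw [upq_of_ne q hj]
          rw [los_not] at hj
          simp [hj]
      have hnot : win s b ∉ big M q := by rw [mem_big]; exact not_le.2 hb
      have hlos := le_bigSum hq0 hlb
      have h2 := hsucc (nxt s (!b)) (hs.nxt _) (upq s (!b) q) (upq_pos hq0)
        (by rw [hbig, Finset.card_insert_of_notMem hnot, hcard]) (by
          intro j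
          by_cases hj : j = los s (!b)
          · subst hj; rw [upq_los, los_not, win_not]; linarith
          · rw [upq_of_ne q hj]
            by_cases hjM : M ≤ q j
            · have := le_bigSum hq0 hjM; linarith
            · push Not at hjM; linarith)
      have h3 : pr s b q * (bigSum M q + q (win s b)) ≤ bigSum M q := by
        unfold pr
        rw [div_mul_eq_mul_div, div_le_iff₀ (add_pos (hq0 _) (hq0 _))]
        have := mul_le_mul_of_nonneg_right hlos (hq0 (win s b)).le
        nlinarith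
      have h4 : c * (1 - bigSum M q / L) ≤ pr s b q *
          (c * (1 - (bigSum M q + q (win s b)) / L)) + pr s (!b) q * c := by
        have h5 : pr s (!b) q = 1 - pr s b q := by linarith
        rw [h5]
        have h6 : pr s b q * (bigSum M q + q (win s b)) / L ≤ bigSum M q / L := by
          gcongr
        have h7 : pr s b q * (c * (1 - (bigSum M q + q (win s b)) / L)) + (1 - pr s b q) * c =
            c * (1 - pr s b q * (bigSum M q + q (win s b)) / L) := by ring
        rw [h7]
        apply mul_le_mul_of_nonneg_left _ hc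
        linarith
      calc c * (1 - bigSum M q / L) ≤ _ := h4
        _ ≤ pr s b q * h (nxt s b) (upq s b q) + pr s (!b) q * h (nxt s (!b)) (upq s (!b) q) := by
          gcongr
        _ ≤ _ := hsup
    · rw [if_neg hlb, add_zero] at h1
      push Not at hlb
      have h2 := phaseC_step hm hM hL hc hsucc hδ ih hs hq hcard hsum hSL (b := !b)
        (by rw [win_not]; exact hlb)
      rw [los_not, if_neg (not_le.2 hb), add_zero] at h2
      calc c * (1 - bigSum M q / L)
          = pr s b q * (c * (1 - bigSum M q / L)) + pr s (!b) q * (c * (1 - bigSum M q / L)) := by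
            rw [← add_mul, hpp, one_mul]
        _ ≤ pr s b q * h (nxt s b) (upq s b q) + pr s (!b) q * h (nxt s (!b)) (upq s (!b) q) := by
          gcongr
        _ ≤ _ := hsup

/-- The steering phase. -/
theorem phaseA {h : St m → (Fin (m + 1) → ℝ) → ℝ} (hh : SuperH h) {M E : ℝ} (hM : 0 < M)
    {X : Set (Fin (m + 1))} {s : St m} {w : List Bool} (hw : Steer X s w) :
    ∀ {q : Fin (m + 1) → ℝ}, Irr s → (∀ j, 0 < q j) → (∀ j, j ∈ X ↔ M ≤ q j) →
      (∀ j, q j * 2 ^ w.length ≤ E) →
      (M / (2 * E)) ^ w.length * h (endSt s w) (qPath s w q) ≤ h s q ∧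
      (∀ j, j ∈ X ↔ M ≤ qPath s w q j) ∧ (∀ j, qPath s w q j ≤ E) ∧
      (qPath s w q (topL (endSt s w)) < M ∨ qPath s w q (botL (endSt s w)) < M) := by
  induction hw with
  | @done s hst =>
    intro q hs hq hX hE
    refine ⟨by simp [endSt, qPath], hX, fun j => by have := hE j; simpa [qPath] using this, ?_⟩
    show q (topL s) < M ∨ q (botL s) < M
    rcases hst with ⟨-, h2⟩ | ⟨h2, -⟩
    · right; rw [hX] at h2; exact not_le.1 h2
    · left; rw [hX] at h2; exact not_le.1 h2
  | @cons s b w ht hb _ ih =>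
    intro q hs hq hX hE
    have hwX : M ≤ q (win s b) := by cases b <;> [exact (hX _).1 hb; exact (hX _).1 ht]
    have hlX : M ≤ q (los s b) := by cases b <;> [exact (hX _).1 ht; exact (hX _).1 hb]
    have hE1 : ∀ j, upq s b q j * 2 ^ w.length ≤ E := by
      intro j
      by_cases hj : j = los s b
      · subst hj
        rw [upq_los]
        have h1 := hE (los s b)
        have h2 := hE (win s b)
        rw [List.length_cons, pow_succ] at h1 h2
        nlinarith
      · rw [upq_of_ne q hj]
        have h1 := hE j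
        rw [List.length_cons, pow_succ] at h1
        have : 0 < q j * 2 ^ w.length := mul_pos (hq j) (by positivity)
        nlinarith
    have hX1 : ∀ j, j ∈ X ↔ M ≤ upq s b q j := by
      intro j
      rw [hX]
      by_cases hj : j = los s b
      · subst hj; rw [upq_los]
        exact ⟨fun _ => by linarith [hq (win s b)], fun _ => hlX⟩
      · rw [upq_of_ne q hj]
    obtain ⟨h1, h2, h3, h4⟩ := ih (hs.nxt b) (upq_pos hq) hX1 hE1
    refine ⟨?_, h2, h3, h4⟩
    have hsup := hh.super1 hs hq b
    have hEq : ∀ j, q j ≤ E := by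
      intro j
      have := hE j
      have h5 : (1 : ℝ) ≤ 2 ^ (b :: w).length := one_le_pow₀ (by norm_num)
      nlinarith [hq j]
    have hE0 : 0 < E := (hq (win s b)).trans_le (hEq _)
    have hp : M / (2 * E) ≤ pr s b q := by
      unfold pr
      rw [div_le_div_iff₀ (by positivity) (add_pos (hq _) (hq _))]
      have h6 := hEq (win s b)
      have h7 := hEq (los s b)
      have h8 := hq (los s b)
      nlinarith
    have hnn : 0 ≤ h (nxt s b) (upq s b q) := hh.nonneg _ (hs.nxt b) _ (upq_pos hq)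
    show (M / (2 * E)) ^ (w.length + 1) * h (endSt (nxt s b) w) (qPath (nxt s b) w (upq s b q))
      ≤ h s q
    calc (M / (2 * E)) ^ (w.length + 1) * h (endSt (nxt s b) w) (qPath (nxt s b) w (upq s b q))
        = M / (2 * E) * ((M / (2 * E)) ^ w.length *
          h (endSt (nxt s b) w) (qPath (nxt s b) w (upq s b q))) := by ring
      _ ≤ M / (2 * E) * h (nxt s b) (upq s b q) := by gcongr
      _ ≤ pr s b q * h (nxt s b) (upq s b q) := by gcongr
      _ ≤ h s q := hsup

/-- A uniform bound for the length of the steering words. -/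
theorem exists_steer_bound (m : ℕ) (hm : 0 < m) : ∃ L0 : ℕ, ∀ s : St m, Irr s →
    ∀ X : Finset (Fin (m + 1)), (topL s ∈ X ∨ botL s ∈ X) → (∃ j, j ∉ X) →
    ∃ w, Steer (X : Set (Fin (m + 1))) s w ∧ w.length ≤ L0 := by
  classical
  have h1 : ∀ p : St m × Finset (Fin (m + 1)), ∃ w : List Bool,
      (Irr p.1 → (topL p.1 ∈ p.2 ∨ botL p.1 ∈ p.2) → (∃ j, j ∉ p.2) →
        Steer (p.2 : Set (Fin (m + 1))) p.1 w) := by
    intro p
    by_cases h : Irr p.1 ∧ (topL p.1 ∈ p.2 ∨ botL p.1 ∈ p.2) ∧ (∃ j, j ∉ p.2)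
    · obtain ⟨h1, h2, j, h3⟩ := h
      obtain ⟨w, hw⟩ := exists_steer (X := (p.2 : Set (Fin (m + 1)))) h1 hm
        (by simpa using h2) (j := j) (by simpa using h3)
      exact ⟨w, fun _ _ _ => hw⟩
    · exact ⟨[], fun a b c => absurd ⟨a, b, c⟩ h⟩
  choose f hf using h1
  refine ⟨univ.sup fun p => (f p).length, fun s hs X hX hj => ⟨f (s, X), hf (s, X) hs hX hj, ?_⟩⟩
  exact Finset.le_sup (f := fun p => (f p).length) (mem_univ (s, X))

/-- Increase the number of large letters by one. -/
theorem stepK (m : ℕ) (hm : 0 < m) {C : ℝ} (hC : 1 ≤ C) : ∃ C' ρ : ℝ, C ≤ C' ∧ 0 < ρ ∧ ρ ≤ 1 ∧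
    ∀ h : St m → (Fin (m + 1) → ℝ) → ℝ, SuperH h → ∀ k : ℕ, 1 ≤ k → k ≤ m →
    ∀ M c : ℝ, 0 < M → 0 ≤ c →
    (∀ s, Irr s → ∀ q, (∀ j, 0 < q j) → k + 1 ≤ (big M q).card → (∀ j, q j ≤ C' * M) →
      c ≤ h s q) →
    ∀ s, Irr s → ∀ q, (∀ j, 0 < q j) → (big M q).card = k → (∀ j, q j ≤ C * M) →
      ρ * c ≤ h s q := by
  obtain ⟨L0, hL0⟩ := exists_steer_bound m hm
  set e : ℝ := 2 ^ L0 * C with he
  have he1 : 1 ≤ e := by
    have : (1 : ℝ) ≤ 2 ^ L0 := one_le_pow₀ (by norm_num)
    nlinarith
  refine ⟨2 * (m + 1) * e + 1, (1 / (2 * e)) ^ L0 / 2, ?_, by positivity, ?_, ?_⟩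
  · have : (1 : ℝ) ≤ 2 ^ L0 := one_le_pow₀ (by norm_num)
    have h2 : C ≤ e := by rw [he]; nlinarith
    have h3 : (0 : ℝ) ≤ m := by positivity
    nlinarith
  · have h1 : (1 / (2 * e)) ^ L0 ≤ 1 := pow_le_one₀ (by positivity) (by
      rw [div_le_one (by positivity)]; linarith)
    linarith
  intro h hh k hk1 hkm M c hM hc hsucc s hs q hq hcard hqC
  set L : ℝ := 2 * (m + 1) * e * M with hLdef
  have hm0 : (0 : ℝ) ≤ m := by positivity
  have hLM : M ≤ L := by
    rw [hLdef]
    have : (1 : ℝ) ≤ 2 * (m + 1) * e := by nlinarith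
    nlinarith
  have hL0' : 0 < L := hM.trans_le hLM
  have hsucc' : ∀ s, Irr s → ∀ q, (∀ j, 0 < q j) → k + 1 ≤ (big M q).card →
      (∀ j, q j ≤ L + M) → c ≤ h s q := by
    intro s hs q hq hc' hb
    exact hsucc s hs q hq hc' (fun j => (hb j).trans (by rw [hLdef]; linarith))
  -- application of phase C
  have hC' : ∀ s, Irr s → ∀ q, (∀ j, 0 < q j) → (big M q).card = k →
      (q (topL s) < M ∨ q (botL s) < M) → (∀ j, q j ≤ e * M) → c / 2 ≤ h s q := by
    intro s hs q hq hcard hplay hqE
    obtain ⟨jmin, -, hjmin⟩ := Finset.exists_min_image univ q ⟨topL s, mem_univ _⟩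
    have hδ : 0 < q jmin := hq jmin
    obtain ⟨N, hN⟩ := exists_nat_gt ((L + (m + 1) * M) / q jmin)
    have h1 := phaseC hh hm hM hLM hc hsucc' hδ N s hs q (fun j => hjmin j (mem_univ j)) hcard
      hplay (by
        rw [div_lt_iff₀ hδ] at hN
        have : 0 ≤ ∑ j, q j := Finset.sum_nonneg fun j _ => (hq j).le
        linarith)
    have h2 : bigSum M q ≤ (m + 1) * (e * M) := by
      calc bigSum M q ≤ ∑ j ∈ big M q, e * M := Finset.sum_le_sum fun j _ => hqE j
        _ = (big M q).card * (e * M) := by rw [Finset.sum_const, nsmul_eq_mul]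
        _ ≤ (m + 1) * (e * M) := by
          have : ((big M q).card : ℝ) ≤ m + 1 := by
            have := Finset.card_le_univ (big M q)
            simp only [Fintype.card_fin] at this
            exact_mod_cast this
          gcongr
    have h3 : bigSum M q / L ≤ 1 / 2 := by
      rw [div_le_div_iff₀ hL0' (by norm_num)]
      rw [hLdef]
      nlinarith
    nlinarith
  have hρ : (1 / (2 * e)) ^ L0 ≤ 1 := pow_le_one₀ (by positivity) (by
      rw [div_le_one (by positivity)]; linarith)
  by_cases hplay : q (topL s) < M ∨ q (botL s) < M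
  · have h1 := hC' s hs q hq hcard hplay (fun j => (hqC j).trans (by
      have : (1 : ℝ) ≤ 2 ^ L0 := one_le_pow₀ (by norm_num)
      have h2 : C ≤ e := by rw [he]; nlinarith
      gcongr))
    calc (1 / (2 * e)) ^ L0 / 2 * c ≤ 1 / 2 * c := by gcongr
      _ = c / 2 := by ring
      _ ≤ _ := h1
  · push Not at hplay
    have hex : ∃ j, j ∉ big M q := by
      by_contra hcon
      push Not at hcon
      have : big M q = univ := by ext j; simp [hcon j]
      rw [this, Finset.card_univ, Fintype.card_fin] at hcard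
      omega
    obtain ⟨w, hw, hwl⟩ := hL0 s hs (big M q) (Or.inl (mem_big.2 hplay.1)) hex
    have hE : ∀ j, q j * 2 ^ w.length ≤ e * M := by
      intro j
      have h1 : (2 : ℝ) ^ w.length ≤ 2 ^ L0 := pow_le_pow_right₀ (by norm_num) hwl
      calc q j * 2 ^ w.length ≤ (C * M) * 2 ^ L0 := by
            have := hqC j
            have := hq j
            gcongr
        _ = e * M := by rw [he]; ring
    obtain ⟨h1, h2, h3, h4⟩ := phaseA hh hM hw hs hq (fun j => by simp [mem_big]) hE
    have hcard' : (big M (qPath s w q)).card = k := by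
      have : big M (qPath s w q) = big M q := by
        ext j
        have := h2 j
        simp only [Finset.mem_coe] at this
        rw [this, mem_big]
      rw [this]; exact hcard
    have h5 := hC' (endSt s w) (hs.endSt w) (qPath s w q) (qPath_pos w hq) hcard' h4 h3
    have h6 : M / (2 * (e * M)) = 1 / (2 * e) := by
      field_simp
    rw [h6] at h1
    have h7 : (1 / (2 * e)) ^ L0 ≤ (1 / (2 * e)) ^ w.length := by
      apply pow_le_pow_of_le_one (by positivity) _ hwl
      rw [div_le_one (by positivity)]; linarith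
    calc (1 / (2 * e)) ^ L0 / 2 * c = (1 / (2 * e)) ^ L0 * (c / 2) := by ring
      _ ≤ (1 / (2 * e)) ^ w.length * h (endSt s w) (qPath s w q) := by gcongr
      _ ≤ _ := h1

theorem lemmaK_aux (m : ℕ) (hm : 0 < m) (i : ℕ) : ∀ k : ℕ, 1 ≤ k → k + i = m + 1 →
    ∀ C : ℝ, 1 ≤ C → ∃ C' ρ : ℝ, 1 ≤ C' ∧ 0 < ρ ∧ ρ ≤ 1 ∧
    ∀ h : St m → (Fin (m + 1) → ℝ) → ℝ, SuperH h → ∀ M c : ℝ, 0 < M → 0 ≤ c →
    (∀ s, Irr s → ∀ q : Fin (m + 1) → ℝ, (∀ j, M ≤ q j) → (∀ j, q j ≤ C' * M) → c ≤ h s q) →
    ∀ s, Irr s → ∀ q, (∀ j, 0 < q j) → k ≤ (big M q).card → (∀ j, q j ≤ C * M) →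
      ρ * c ≤ h s q := by
  induction i with
  | zero =>
    intro k hk1 hk C hC
    refine ⟨C, 1, hC, one_pos, le_rfl, fun h hh M c hM hc hfull s hs q hq hcard hqC => ?_⟩
    rw [one_mul]
    refine hfull s hs q (fun j => ?_) hqC
    have h1 : big M q = univ := by
      apply Finset.eq_univ_of_card
      have := Finset.card_le_univ (big M q)
      rw [Fintype.card_fin] at this ⊢
      omega
    exact mem_big.1 (by rw [h1]; exact mem_univ j)
  | succ i ih =>
    intro k hk1 hk C hC
    obtain ⟨C1, ρ1, hCC1, hρ1, hρ1', h1⟩ := stepK m hm hC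
    obtain ⟨C2, ρ2, hC2, hρ2, hρ2', h2⟩ := ih (k + 1) (by omega) (by omega) C1 (hC.trans hCC1)
    refine ⟨C2, ρ1 * ρ2, hC2, by positivity, by nlinarith, ?_⟩
    intro h hh M c hM hc hfull s hs q hq hcard hqC
    have h3 := h2 h hh M c hM hc hfull
    rcases Nat.lt_or_ge k (big M q).card with hlt | hge
    · have h4 := h3 s hs q hq hlt (fun j => (hqC j).trans (by gcongr))
      refine le_trans ?_ h4
      nlinarith [mul_nonneg hρ2.le hc]
    · have h4 := h1 h hh k hk1 (by omega) M (ρ2 * c) hM (by positivity)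
        (fun s hs q hq hcard hb => h3 s hs q hq hcard hb) s hs q hq (le_antisymm hge hcard) hqC
      calc ρ1 * ρ2 * c = ρ1 * (ρ2 * c) := by ring
        _ ≤ _ := h4

/-- **Lemma K**: a nonnegative superharmonic function which is at least `c` on balanced
states is at least `ρ c` everywhere. -/
theorem lemmaK (m : ℕ) (hm : 0 < m) : ∃ C ρ : ℝ, 1 ≤ C ∧ 0 < ρ ∧ ρ ≤ 1 ∧
    ∀ h : St m → (Fin (m + 1) → ℝ) → ℝ, SuperH h → ∀ c : ℝ, 0 ≤ c →
    (∀ s, Irr s → ∀ q : Fin (m + 1) → ℝ, (∀ j, 0 < q j) → (∀ i j, q i ≤ C * q j) → c ≤ h s q) →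
    ∀ s, Irr s → ∀ q, (∀ j, 0 < q j) → ρ * c ≤ h s q := by
  obtain ⟨C, ρ, hC, hρ, hρ', h1⟩ := lemmaK_aux m hm m 1 le_rfl (by omega) 1 le_rfl
  refine ⟨C, ρ, hC, hρ, hρ', fun h hh c hc hbal s hs q hq => ?_⟩
  obtain ⟨jmax, -, hjmax⟩ := Finset.exists_max_image univ q ⟨topL s, mem_univ _⟩
  refine h1 h hh (q jmax) c (hq _) hc ?_ s hs q hq ?_ (fun j => by
    rw [one_mul]; exact hjmax j (mem_univ j))
  · intro s' hs' q' hq1 hq2
    refine hbal s' hs' q' (fun j => (hq jmax).trans_le (hq1 j)) (fun i j => ?_)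
    calc q' i ≤ C * q jmax := hq2 i
      _ ≤ C * q' j := by have := hq1 j; gcongr
  · exact Finset.card_pos.2 ⟨jmax, mem_big.2 le_rfl⟩

end SkewIET
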