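import Pool.Agent.Lib.Skew.Defs

/-!
# Rauzy induction: combinatorics

States are pairs of permutations (positions of the letters in the top and bottom row).
-/

open Set

namespace SkewIET

variable {m : ℕ}

/-- A combinatorial state: positions of the letters in the top and in the bottom row. -/
abbrev St (m : ℕ) := Equiv.Perm (Fin (m + 1)) × Equiv.Perm (Fin (m + 1))

/-- The last letter of the top row. -/
def topL (s : St m) : Fin (m + 1) := s.1.symm (Fin.last m)

/-- The last letter of the bottom row. -/
def botL (s : St m) : Fin (m + 1) := s.2.symm (Fin.last m)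

theorem topL_pos (s : St m) : (s.1 (topL s) : ℕ) = m := by simp [topL]

theorem botL_pos (s : St m) : (s.2 (botL s) : ℕ) = m := by simp [botL]

theorem eq_topL {s : St m} {j : Fin (m + 1)} (h : (s.1 j : ℕ) = m) : j = topL s := by
  apply s.1.injective
  apply Fin.ext
  rw [h, topL_pos]

theorem eq_botL {s : St m} {j : Fin (m + 1)} (h : (s.2 j : ℕ) = m) : j = botL s := by
  apply s.2.injective
  apply Fin.ext
  rw [h, botL_pos]

/-- Positions `≤ p` are fixed, the last position is sent to `p+1` and the others move up. -/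
def shiftFun (p x : Fin (m + 1)) : Fin (m + 1) :=
  ⟨if (x : ℕ) ≤ p then x else if (x : ℕ) = m then p + 1 else x + 1, by
    have := x.2
    have := p.2
    split_ifs <;> omega⟩

theorem shiftFun_val (p x : Fin (m + 1)) : (shiftFun p x : ℕ) =
    if (x : ℕ) ≤ p then (x : ℕ) else if (x : ℕ) = m then (p : ℕ) + 1 else (x : ℕ) + 1 := rfl

theorem shiftFun_injective (p : Fin (m + 1)) : Function.Injective (shiftFun p) := by
  intro x y h
  have h' := congrArg Fin.val h
  rw [shiftFun_val, shiftFun_val] at h'
  apply Fin.ext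
  have := x.2
  have := y.2
  split_ifs at h' <;> omega

/-- The shift of positions as a permutation. -/
noncomputable def shift (p : Fin (m + 1)) : Equiv.Perm (Fin (m + 1)) :=
  Equiv.ofBijective (shiftFun p) (Finite.injective_iff_bijective.mp (shiftFun_injective p))

theorem shift_val (p x : Fin (m + 1)) : (shift p x : ℕ) =
    if (x : ℕ) ≤ p then (x : ℕ) else if (x : ℕ) = m then (p : ℕ) + 1 else (x : ℕ) + 1 := by
  rw [← shiftFun_val]; rfl

/-- The state after a step in which the last top letter wins. -/
noncomputable def nextTop (s : St m) : St m := (s.1, s.2.trans (shift (s.2 (topL s))))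

/-- The state after a step in which the last bottom letter wins. -/
noncomputable def nextBot (s : St m) : St m := (s.1.trans (shift (s.1 (botL s))), s.2)

theorem nextTop_fst (s : St m) : (nextTop s).1 = s.1 := rfl
theorem nextBot_snd (s : St m) : (nextBot s).2 = s.2 := rfl

theorem nextTop_snd_val (s : St m) (j : Fin (m + 1)) : ((nextTop s).2 j : ℕ) =
    if (s.2 j : ℕ) ≤ s.2 (topL s) then (s.2 j : ℕ)
    else if (s.2 j : ℕ) = m then (s.2 (topL s) : ℕ) + 1 else (s.2 j : ℕ) + 1 := by
  show ((shift (s.2 (topL s))) (s.2 j) : ℕ) = _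
  rw [shift_val]

theorem nextBot_fst_val (s : St m) (j : Fin (m + 1)) : ((nextBot s).1 j : ℕ) =
    if (s.1 j : ℕ) ≤ s.1 (botL s) then (s.1 j : ℕ)
    else if (s.1 j : ℕ) = m then (s.1 (botL s) : ℕ) + 1 else (s.1 j : ℕ) + 1 := by
  show ((shift (s.1 (botL s))) (s.1 j) : ℕ) = _
  rw [shift_val]

theorem topL_nextTop (s : St m) : topL (nextTop s) = topL s := rfl
theorem botL_nextBot (s : St m) : botL (nextBot s) = botL s := rfl

theorem swap_nextTop (s : St m) : (nextTop s).swap = nextBot s.swap := rfl
theorem swap_nextBot (s : St m) : (nextBot s).swap = nextTop s.swap := rfl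

/-- Irreducibility of a state. -/
def Irr (s : St m) : Prop :=
  ∀ k : ℕ, 0 < k → k ≤ m → ∃ j, (s.1 j : ℕ) < k ∧ k ≤ (s.2 j : ℕ)

theorem card_lt (p : Equiv.Perm (Fin (m + 1))) (k : ℕ) :
    (Finset.univ.filter (fun j => (p j : ℕ) < k)).card =
      (Finset.univ.filter (fun j : Fin (m + 1) => (j : ℕ) < k)).card := by
  apply Finset.card_bij (fun j _ => p j)
  · intro a ha
    simpa using ha
  · intro a _ b _ h
    exact p.injective h
  · intro b hb
    exact ⟨p.symm b, by simpa using hb, by simp⟩

theorem Irr.swap {s : St m} (h : Irr s) : Irr s.swap := by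
  intro k hk hkm
  by_contra hcon
  push Not at hcon
  have hsub : Finset.univ.filter (fun j => (s.2 j : ℕ) < k) ⊆
      Finset.univ.filter (fun j => (s.1 j : ℕ) < k) := by
    intro j hj
    simp only [Finset.mem_filter, Finset.mem_univ, true_and] at hj ⊢
    exact hcon j hj
  have heq := Finset.eq_of_subset_of_card_le hsub (by rw [card_lt, card_lt])
  obtain ⟨j, hj1, hj2⟩ := h k hk hkm
  have : j ∈ Finset.univ.filter (fun j => (s.1 j : ℕ) < k) := by simp [hj1]
  rw [← heq] at this
  simp only [Finset.mem_filter, Finset.mem_univ, true_and] at this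
  omega

theorem Irr.nextBot {s : St m} (h : Irr s) : Irr (nextBot s) := by
  intro k hk hkm
  by_cases hkp : k ≤ (s.1 (botL s) : ℕ) + 1
  · obtain ⟨j, hj1, hj2⟩ := h k hk hkm
    refine ⟨j, ?_, hj2⟩
    rw [nextBot_fst_val, if_pos (by omega)]
    exact hj1
  · refine ⟨botL s, ?_, ?_⟩
    · rw [nextBot_fst_val, if_pos le_rfl]
      omega
    · show k ≤ (s.2 (botL s) : ℕ)
      rw [botL_pos]; exact hkm

theorem Irr.nextTop {s : St m} (h : Irr s) : Irr (nextTop s) := by
  have := (h.swap.nextBot).swap
  exact this

theorem topL_ne_botL {s : St m} (h : Irr s) (hm : 0 < m) : topL s ≠ botL s := by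
  obtain ⟨j, hj1, hj2⟩ := h m hm le_rfl
  intro heq
  have h2 : (s.2 j : ℕ) = m := by have := (s.2 j).2; omega
  have hj := eq_botL h2
  have := topL_pos s
  rw [heq, ← hj] at this
  omega

/-- One step of Rauzy induction on states; `true` = the top letter wins. -/
noncomputable def nxt (s : St m) (b : Bool) : St m := if b then nextTop s else nextBot s

/-- The winner. -/
def win (s : St m) (b : Bool) : Fin (m + 1) := if b then topL s else botL s

/-- The loser. -/
def los (s : St m) (b : Bool) : Fin (m + 1) := if b then botL s else topL s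

theorem win_not (s : St m) (b : Bool) : win s (!b) = los s b := by cases b <;> rfl
theorem los_not (s : St m) (b : Bool) : los s (!b) = win s b := by cases b <;> rfl

theorem Irr.nxt {s : St m} (h : Irr s) (b : Bool) : Irr (nxt s b) := by
  cases b
  · exact h.nextBot
  · exact h.nextTop

theorem win_ne_los {s : St m} (h : Irr s) (hm : 0 < m) (b : Bool) : win s b ≠ los s b := by
  cases b
  · exact (topL_ne_botL h hm).symm
  · exact topL_ne_botL h hm

/-- After a step the winner is still the last letter of its row. -/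
theorem win_mem_play (s : St m) (b : Bool) :
    win s b = topL (nxt s b) ∨ win s b = botL (nxt s b) := by
  cases b
  · right; exact (botL_nextBot s).symm
  · left; exact (topL_nextTop s).symm

/-! ### Every letter can be brought to the end of a row -/

/-- Reachability of states. -/
def Reach (s t : St m) : Prop := Relation.ReflTransGen (fun a b => ∃ c, b = nxt a c) s t

theorem Reach.irr {s t : St m} (h : Reach s t) (hs : Irr s) : Irr t := by
  induction h with
  | refl => exact hs
  | tail _ hbc ih => obtain ⟨c, rfl⟩ := hbc; exact ih.nxt c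

theorem Reach.nextTop {s t : St m} (h : Reach s t) : Reach s (nextTop t) :=
  h.tail ⟨true, rfl⟩

theorem Reach.nextBot {s t : St m} (h : Reach s t) : Reach s (nextBot t) :=
  h.tail ⟨false, rfl⟩

theorem Reach.swap {s t : St m} (h : Reach s t) : Reach s.swap t.swap := by
  induction h with
  | refl => exact Relation.ReflTransGen.refl
  | tail _ hbc ih =>
    obtain ⟨c, rfl⟩ := hbc
    refine ih.tail ⟨!c, ?_⟩
    cases c <;> rfl

/-- Bottom positions `≤ x` do not change along a path, if all the top letters that occur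
have bottom positions `≥ x`. -/
theorem bot_const {s : St m} {x : ℕ}
    (hx : ∀ t, Reach s t → x ≤ (t.2 (topL t) : ℕ)) {t : St m} (ht : Reach s t)
    {j : Fin (m + 1)} :
    ((s.2 j : ℕ) ≤ x → (t.2 j : ℕ) = s.2 j) ∧ (x < (s.2 j : ℕ) → x < (t.2 j : ℕ)) := by
  induction ht with
  | refl => exact ⟨fun _ => rfl, fun h => h⟩
  | @tail b c hsb hbc ih =>
    obtain ⟨d, rfl⟩ := hbc
    cases d
    · exact ih
    · have hxb := hx b hsb
      show ((s.2 j : ℕ) ≤ x → ((nextTop b).2 j : ℕ) = s.2 j) ∧
        (x < (s.2 j : ℕ) → x < ((nextTop b).2 j : ℕ))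
      rw [nextTop_snd_val]
      constructor
      · intro h
        have := ih.1 h
        rw [if_pos (by omega)]; exact this
      · intro h
        have := ih.2 h
        split_ifs <;> omega

/-- Rotating the bottom row: the letter at bottom position `i > (bottom position of the last
top letter)` can be brought to the end of the bottom row. -/
theorem exists_botL {t : St m} (k : ℕ) : ∀ (j : Fin (m + 1)), (t.2 (topL t) : ℕ) < t.2 j →
    (t.2 j : ℕ) + k = m → ∃ t', Reach t t' ∧ botL t' = j ∧ topL t' = topL t := by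
  induction k generalizing t with
  | zero =>
    intro j hj hjk
    exact ⟨t, Relation.ReflTransGen.refl, (eq_botL (by omega)).symm, rfl⟩
  | succ k ih =>
    intro j hj hjk
    have h1 : ((nextTop t).2 (topL (nextTop t)) : ℕ) = t.2 (topL t) := by
      rw [topL_nextTop, nextTop_snd_val, if_pos le_rfl]
    have h2 : ((nextTop t).2 j : ℕ) = t.2 j + 1 := by
      rw [nextTop_snd_val, if_neg (by omega), if_neg (by omega)]
    obtain ⟨t', ht', hb, htop⟩ := ih (t := nextTop t) j (by omega) (by omega)
    exact ⟨t', Relation.ReflTransGen.head ⟨true, rfl⟩ ht', hb, htop⟩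

theorem exists_min_bot (s : St m) : ∃ t, Reach s t ∧
    ∀ t', Reach s t' → (t.2 (topL t) : ℕ) ≤ t'.2 (topL t') := by
  classical
  have hne : (Finset.univ.filter (fun t : St m => Reach s t)).Nonempty :=
    ⟨s, by simp only [Finset.mem_filter, Finset.mem_univ, true_and]
           exact Relation.ReflTransGen.refl⟩
  obtain ⟨t, ht, hmin⟩ := Finset.exists_min_image _ (fun t : St m => (t.2 (topL t) : ℕ)) hne
  simp only [Finset.mem_filter, Finset.mem_univ, true_and] at ht hmin
  exact ⟨t, ht, hmin⟩

theorem exists_min_top (s : St m) : ∃ t, Reach s t ∧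
    ∀ t', Reach s t' → (t.1 (botL t) : ℕ) ≤ t'.1 (botL t') := by
  classical
  have hne : (Finset.univ.filter (fun t : St m => Reach s t)).Nonempty :=
    ⟨s, by simp only [Finset.mem_filter, Finset.mem_univ, true_and]
           exact Relation.ReflTransGen.refl⟩
  obtain ⟨t, ht, hmin⟩ := Finset.exists_min_image _ (fun t : St m => (t.1 (botL t) : ℕ)) hne
  simp only [Finset.mem_filter, Finset.mem_univ, true_and] at ht hmin
  exact ⟨t, ht, hmin⟩

/-- One half of the analysis of the reachable states. -/
theorem half {s : St m} {xt xb : ℕ} (hs : Irr s) (hm : 0 < m)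
    (t1 : St m) (ht1 : Reach s t1) (hxb : (t1.2 (topL t1) : ℕ) = xb)
    (hmin1 : ∀ t', Reach s t' → xb ≤ t'.2 (topL t'))
    (t2 : St m) (ht2 : Reach s t2) (hxt : (t2.1 (botL t2) : ℕ) = xt)
    (hmin2 : ∀ t', Reach s t' → xt ≤ t'.1 (botL t')) :
    (∀ j, xb < (s.2 j : ℕ) → (∃ t, Reach s t ∧ botL t = j) ∧ xt ≤ (s.1 j : ℕ)) ∧
    ((s.2 (topL t1) : ℕ) = xb) ∧ (xt < (s.1 (topL t1) : ℕ)) := by
  have htop : ∀ {t : St m}, Reach s t → ∀ {j : Fin (m + 1)},
      ((s.1 j : ℕ) ≤ xt → (t.1 j : ℕ) = s.1 j) ∧ (xt < (s.1 j : ℕ) → xt < (t.1 j : ℕ)) := by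
    intro t ht j
    have := bot_const (s := s.swap) (x := xt) (t := t.swap) (j := j) (fun t' ht' => by
      have h2 := hmin2 t'.swap (by simpa using ht'.swap)
      exact h2) ht.swap
    exact this
  refine ⟨?_, ?_, ?_⟩
  · intro j hj
    have hj1 : xb < (t1.2 j : ℕ) := (bot_const hmin1 ht1).2 hj
    have hjm := (t1.2 j).2
    obtain ⟨t, ht, htb, -⟩ := exists_botL (t := t1) (m - (t1.2 j : ℕ)) j (by omega) (by omega)
    have hst : Reach s t := ht1.trans ht
    refine ⟨⟨t, hst, htb⟩, ?_⟩
    have h1 := hmin2 t hst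
    rw [htb] at h1
    by_contra hcon
    push Not at hcon
    have := (htop hst (j := j)).1 hcon.le
    omega
  · -- the letter at position xb is constant
    obtain ⟨j0, hj0⟩ : ∃ j0 : Fin (m + 1), (s.2 j0 : ℕ) = xb := by
      have : xb < m + 1 := by rw [← hxb]; exact (t1.2 _).2
      exact ⟨s.2.symm ⟨xb, this⟩, by simp⟩
    have h1 := (bot_const hmin1 ht1 (j := j0)).1 hj0.le
    have : topL t1 = j0 := by
      apply t1.2.injective
      apply Fin.ext
      rw [hxb, h1, hj0]
    rw [this]; exact hj0
  · have hlt : xt < m := by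
      have hne := topL_ne_botL (ht2.irr hs) hm
      rw [← hxt]
      have h2 := (t2.1 (botL t2)).2
      rcases Nat.lt_or_ge (t2.1 (botL t2) : ℕ) m with h | h
      · exact h
      · exact absurd (eq_topL (s := t2) (j := botL t2) (by omega)) (Ne.symm hne)
    by_contra hcon
    push Not at hcon
    have h1 := (htop ht1 (j := topL t1)).1 hcon
    rw [topL_pos] at h1
    omega

/-- Every letter is the last letter of a row in some reachable state. -/
theorem exists_reach_last {s : St m} (hs : Irr s) (hm : 0 < m) (j : Fin (m + 1)) :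
    ∃ t, Reach s t ∧ (topL t = j ∨ botL t = j) := by
  obtain ⟨t1, ht1, hmin1⟩ := exists_min_bot s
  obtain ⟨t2, ht2, hmin2⟩ := exists_min_top s
  set xb := (t1.2 (topL t1) : ℕ) with hxb
  set xt := (t2.1 (botL t2) : ℕ) with hxt
  obtain ⟨hA, hA2, hA3⟩ := half hs hm t1 ht1 hxb.symm hmin1 t2 ht2 hxt.symm hmin2
  obtain ⟨hB, hB2, hB3⟩ := half (s := s.swap) (xt := xb) (xb := xt) hs.swap hm t2.swap ht2.swap
    hxt.symm (fun t' ht' => by
      have := hmin2 t'.swap (by simpa using ht'.swap)
      exact this) t1.swap ht1.swap hxb.symm (fun t' ht' => by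
      have := hmin1 t'.swap (by simpa using ht'.swap)
      exact this)
  change ∀ j, xt < (s.1 j : ℕ) → _ ∧ xb ≤ (s.2 j : ℕ) at hB
  change (s.1 (botL t2) : ℕ) = xt at hB2
  change xb < (s.2 (botL t2) : ℕ) at hB3
  have hxbm : xb ≤ m := by have := (t1.2 (topL t1)).2; omega
  have hxtm : xt ≤ m := by have := (t2.1 (botL t2)).2; omega
  have key : xb = 0 ∧ xt = 0 := by
    rcases le_total xb xt with h | h
    · have hxt0 : xt = 0 := by
        by_contra h0
        obtain ⟨i, hi1, hi2⟩ := hs xt (by omega) hxtm
        rcases Nat.lt_or_ge xb (s.2 i : ℕ) with h' | h'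
        · have := (hA i h').2
          omega
        · have hi3 : i = topL t1 := by
            apply s.2.injective
            apply Fin.ext
            omega
          rw [hi3] at hi1
          omega
      exact ⟨by omega, hxt0⟩
    · have hxb0 : xb = 0 := by
        by_contra h0
        obtain ⟨i, hi1, hi2⟩ := hs.swap xb (by omega) hxbm
        change (s.2 i : ℕ) < xb at hi1
        change xb ≤ (s.1 i : ℕ) at hi2
        rcases Nat.lt_or_ge xt (s.1 i : ℕ) with h' | h'
        · have := (hB i h').2
          omega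
        · have hi3 : i = botL t2 := by
            apply s.1.injective
            apply Fin.ext
            omega
          rw [hi3] at hi1
          omega
      exact ⟨hxb0, by omega⟩
  rcases Nat.eq_zero_or_pos (s.2 j : ℕ) with h | h
  · refine ⟨t1, ht1, Or.inl ?_⟩
    apply s.2.injective
    apply Fin.ext
    omega
  · obtain ⟨⟨t, ht, htb⟩, -⟩ := hA j (by omega)
    exact ⟨t, ht, Or.inr htb⟩

/-! ### Steering -/

/-- Along the word `w` all plays are between letters of `X`, and after the word the play
is between a letter of `X` and a letter outside of `X`. -/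
inductive Steer (X : Set (Fin (m + 1))) : St m → List Bool → Prop
  | done {s : St m} (h : (topL s ∈ X ∧ botL s ∉ X) ∨ (topL s ∉ X ∧ botL s ∈ X)) : Steer X s []
  | cons {s : St m} {b : Bool} {w : List Bool} (ht : topL s ∈ X) (hb : botL s ∈ X)
      (h : Steer X (nxt s b) w) : Steer X s (b :: w)

theorem exists_steer_aux {X : Set (Fin (m + 1))} {s t : St m} (hst : Reach s t)
    (ht : topL t ∉ X ∨ botL t ∉ X) (h1 : topL s ∈ X ∨ botL s ∈ X) : ∃ w, Steer X s w := by
  induction hst using Relation.ReflTransGen.head_induction_on with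
  | refl =>
    refine ⟨[], Steer.done ?_⟩
    tauto
  | @head a c hac _ ih =>
    obtain ⟨b, rfl⟩ := hac
    by_cases hboth : topL a ∈ X ∧ botL a ∈ X
    · have hw : win a b ∈ X := by cases b <;> [exact hboth.2; exact hboth.1]
      have : topL (nxt a b) ∈ X ∨ botL (nxt a b) ∈ X := by
        rcases win_mem_play a b with h | h
        · left; rw [← h]; exact hw
        · right; rw [← h]; exact hw
      obtain ⟨w, hw⟩ := ih this
      exact ⟨b :: w, Steer.cons hboth.1 hboth.2 hw⟩
    · refine ⟨[], Steer.done ?_⟩
      tauto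

/-- **Steering lemma.** -/
theorem exists_steer {X : Set (Fin (m + 1))} {s : St m} (hs : Irr s) (hm : 0 < m)
    (h1 : topL s ∈ X ∨ botL s ∈ X) {j : Fin (m + 1)} (hj : j ∉ X) : ∃ w, Steer X s w := by
  obtain ⟨t, ht, htj⟩ := exists_reach_last hs hm j
  refine exists_steer_aux ht ?_ h1
  rcases htj with h | h
  · left; rw [h]; exact hj
  · right; rw [h]; exact hj

end SkewIET
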