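import Pool.Agent.Lib.Skew.Iet
import Pool.Agent.Lib.Skew.AE

/-!
# Towers over the bases of Rauzy induction
-/

open MeasureTheory Set

namespace SkewIET

variable {m : ℕ}

/-- Tower structure at a stage of Rauzy induction. -/
structure Tower (s0 : St m) (l0 : Fin (m + 1) → ℝ) (s : St m) (l : Fin (m + 1) → ℝ)
    (W : Fin (m + 1) → List (Fin (m + 1))) : Prop where
  nielsen : NielsenFamily W
  ne_nil : ∀ j, 0 < (W j).length
  orbit : ∀ j, ∀ x ∈ piece s.1 l j, ∀ i (hi : i < (W j).length),
    (iet s0.1 s0.2 l0)^[i] x ∈ piece s0.1 l0 (W j)[i]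
  ret : ∀ j, ∀ x ∈ piece s.1 l j, (iet s0.1 s0.2 l0)^[(W j).length] x = iet s.1 s.2 l x
  first : ∀ j, ∀ x ∈ piece s.1 l j, ∀ i, 0 < i → i < (W j).length →
    (iet s0.1 s0.2 l0)^[i] x ∉ Ico 0 (∑ j, l j)
  total : ∑ j, ((W j).length : ℝ) * l j = ∑ j, l0 j

theorem Tower.start {s0 : St m} {l0 : Fin (m + 1) → ℝ} :
    Tower s0 l0 s0 l0 (fun j => [j]) where
  nielsen := NielsenFamily.base
  ne_nil := fun j => by simp
  orbit := by
    intro j x hx i hi
    simp only [List.length_cons, List.length_nil, zero_add, Nat.lt_one_iff] at hi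
    subst hi
    exact hx
  ret := by intro j x _; rfl
  first := by
    intro j x _ i hi0 hi
    simp only [List.length_cons, List.length_nil, zero_add, Nat.lt_one_iff] at hi
    omega
  total := by simp

/-- Lengths of words as real numbers. -/
def lens (W : Fin (m + 1) → List (Fin (m + 1))) : Fin (m + 1) → ℝ := fun j => ((W j).length : ℝ)

theorem lens_update (s : St m) (b : Bool) (W : Fin (m + 1) → List (Fin (m + 1))) :
    lens (Function.update W (los s b) (W (botL s) ++ W (topL s))) = upq s b (lens W) := by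
  funext j
  by_cases hj : j = los s b
  · subst hj
    rw [upq_los]
    unfold lens
    simp only [Function.update_self, List.length_append, Nat.cast_add]
    cases b
    · show ((W (botL s)).length : ℝ) + (W (topL s)).length =
        ((W (topL s)).length : ℝ) + (W (botL s)).length
      ring
    · rfl
  · rw [upq_of_ne _ hj]
    unfold lens
    rw [Function.update_of_ne hj]

theorem Tower.step {s0 : St m} {l0 : Fin (m + 1) → ℝ} {s : St m} (h : topL s ≠ botL s)
    {b : Bool} {l : Fin (m + 1) → ℝ} (hl : l ∈ Pos m) {W : Fin (m + 1) → List (Fin (m + 1))}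
    (hT : Tower s0 l0 s (pull1 s b l) W) :
    Tower s0 l0 (nxt s b) l (Function.update W (los s b) (W (botL s) ++ W (topL s))) := by
  have hle : ∑ j, l j ≤ ∑ j, pull1 s b l j := by
    rw [sum_pull1]; linarith [hl (los s b)]
  have hWlos : Function.update W (los s b) (W (botL s) ++ W (topL s)) (los s b) =
      W (botL s) ++ W (topL s) := Function.update_self _ _ _
  refine ⟨?_, ?_, ?_, ?_, ?_, ?_⟩
  · exact NielsenFamily.step hT.nielsen (botL s) (topL s) (los s b) h.symm
      (by cases b <;> [exact Or.inr rfl; exact Or.inl rfl])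
  · intro j
    by_cases hj : j = los s b
    · subst hj
      rw [hWlos, List.length_append]
      have := hT.ne_nil (botL s)
      omega
    · rw [Function.update_of_ne hj]; exact hT.ne_nil j
  · intro j x hx i hi
    obtain ⟨hA, hB⟩ := step_dyn h b hl hx
    by_cases hj : j = los s b
    · obtain ⟨h1, h2, h3, h4⟩ := hB hj
      subst hj
      have key : ∀ i (hi : i < (W (botL s) ++ W (topL s)).length),
          (iet s0.1 s0.2 l0)^[i] x ∈ piece s0.1 l0 (W (botL s) ++ W (topL s))[i] := by
        intro i hi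
        by_cases hi1 : i < (W (botL s)).length
        · rw [List.getElem_append_left hi1]
          exact hT.orbit _ x h1 i hi1
        · rw [List.getElem_append_right (not_lt.1 hi1)]
          have e1 : i = (i - (W (botL s)).length) + (W (botL s)).length := by omega
          have e2 : (iet s0.1 s0.2 l0)^[i] x =
              (iet s0.1 s0.2 l0)^[i - (W (botL s)).length] (iet s.1 s.2 (pull1 s b l) x) := by
            conv_lhs => rw [e1, Function.iterate_add_apply, hT.ret _ x h1]
          rw [e2]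
          exact hT.orbit _ _ h2 _ _
      simpa only [hWlos] using key i (by simpa only [hWlos] using hi)
    · obtain ⟨h1, _⟩ := hA hj
      have key := hT.orbit j x h1 i (by simpa only [Function.update_of_ne hj] using hi)
      simpa only [Function.update_of_ne hj] using key
  · intro j x hx
    obtain ⟨hA, hB⟩ := step_dyn h b hl hx
    by_cases hj : j = los s b
    · obtain ⟨h1, h2, h3, h4⟩ := hB hj
      subst hj
      rw [hWlos, List.length_append, add_comm (W (botL s)).length, Function.iterate_add_apply,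
        hT.ret _ x h1, hT.ret _ _ h2, h4]
    · obtain ⟨h1, h2⟩ := hA hj
      rw [Function.update_of_ne hj, hT.ret j x h1, h2]
  · intro j x hx i hi0 hi
    obtain ⟨hA, hB⟩ := step_dyn h b hl hx
    by_cases hj : j = los s b
    · obtain ⟨h1, h2, h3, h4⟩ := hB hj
      subst hj
      rw [hWlos, List.length_append] at hi
      intro hmem
      rcases lt_trichotomy i (W (botL s)).length with hi1 | hi1 | hi1
      · exact hT.first _ x h1 i hi0 hi1 ⟨hmem.1, hmem.2.trans_le hle⟩
      · rw [hi1, hT.ret _ x h1] at hmem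
        exact absurd hmem.2 (not_lt.2 h3)
      · have e1 : i = (i - (W (botL s)).length) + (W (botL s)).length := by omega
        rw [e1, Function.iterate_add_apply, hT.ret _ x h1] at hmem
        exact hT.first _ _ h2 _ (by omega) (by omega) ⟨hmem.1, hmem.2.trans_le hle⟩
    · obtain ⟨h1, h2⟩ := hA hj
      rw [Function.update_of_ne hj] at hi
      intro hmem
      exact hT.first j x h1 i hi0 hi ⟨hmem.1, hmem.2.trans_le hle⟩
  · have h1 := dual1 s b (lens W) l
    rw [← lens_update] at h1
    have h2 := hT.total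
    calc _ = ∑ j, lens (Function.update W (los s b) (W (botL s) ++ W (topL s))) j * l j := rfl
      _ = ∑ j, lens W j * pull1 s b l j := h1
      _ = _ := h2

theorem Tower.path (w : List Bool) {s0 : St m} {l0 : Fin (m + 1) → ℝ} (hm : 0 < m) :
    ∀ {s : St m}, Irr s → ∀ {l : Fin (m + 1) → ℝ}, l ∈ Pos m →
    ∀ {W : Fin (m + 1) → List (Fin (m + 1))}, Tower s0 l0 s (pull s w l) W →
    ∃ W', Tower s0 l0 (endSt s w) l W' ∧ lens W' = qPath s w (lens W) := by
  induction w with
  | nil => intro s _ l _ W hT; exact ⟨W, hT, rfl⟩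
  | cons b w ih =>
    intro s hs l hl W hT
    have hl' : pull (nxt s b) w l ∈ Pos m := by
      clear hT ih
      generalize nxt s b = t
      induction w generalizing t with
      | nil => exact hl
      | cons c w ihw => exact pull1_mem_Pos (ihw _)
    obtain ⟨W', h1, h2⟩ := ih (hs.nxt b) hl (hT.step (topL_ne_botL hs hm) hl')
    refine ⟨W', h1, ?_⟩
    rw [h2, lens_update]
    rfl

theorem pull_mem_Pos (w : List Bool) : ∀ (s : St m) {l : Fin (m + 1) → ℝ}, l ∈ Pos m →
    pull s w l ∈ Pos m := by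
  induction w with
  | nil => intro s l hl; exact hl
  | cons c w ihw => intro s l hl; exact pull1_mem_Pos (ihw _ hl)

theorem pull_append (u w : List Bool) : ∀ (s : St m) (l : Fin (m + 1) → ℝ),
    pull s (u ++ w) l = pull s u (pull (endSt s u) w l) := by
  induction u with
  | nil => intro s l; rfl
  | cons b u ih =>
    intro s l
    show pull1 s b (pull (nxt s b) (u ++ w) l) = pull1 s b (pull (nxt s b) u _)
    rw [ih]
    rfl

/-- The orbit under Rauzy induction is irreducible. -/
theorem rstep_irr {x : Full m} (h : Irr x.1) : Irr (rstep x).1 := h.nxt _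

theorem rstep_iterate_irr {x : Full m} (h : Irr x.1) (k : ℕ) : Irr (rstep^[k] x).1 := by
  induction k with
  | zero => exact h
  | succ k ih => rw [Function.iterate_succ_apply']; exact rstep_irr ih

theorem exists_tower (hm : 0 < m) {s0 : St m} (hs : Irr s0) {l0 : Fin (m + 1) → ℝ}
    (hpos : ∀ K, (rstep^[K] (s0, lens (fun j : Fin (m + 1) => [j]), l0)).2.2 ∈ Pos m) (K : ℕ) :
    ∃ W, Tower s0 l0 (rstep^[K] (s0, lens (fun j : Fin (m + 1) => [j]), l0)).1
      (rstep^[K] (s0, lens (fun j : Fin (m + 1) => [j]), l0)).2.2 W ∧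
      lens W = (rstep^[K] (s0, lens (fun j : Fin (m + 1) => [j]), l0)).2.1 := by
  induction K with
  | zero => exact ⟨_, Tower.start, rfl⟩
  | succ K ih =>
    obtain ⟨W, hT, hW⟩ := ih
    have hpos' := hpos (K + 1)
    rw [Function.iterate_succ_apply'] at hpos' ⊢
    have hirr : Irr (rstep^[K] (s0, lens (fun j : Fin (m + 1) => [j]), l0)).1 :=
      rstep_iterate_irr hs K
    set x := rstep^[K] (s0, lens (fun j : Fin (m + 1) => [j]), l0) with hx
    have hne := win_ne_los hirr hm (rtype x.1 x.2.2)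
    have e1 : pull1 x.1 (rtype x.1 x.2.2) (rstep x).2.2 = x.2.2 := pull1_fwd hne _
    have hT' : Tower s0 l0 x.1 (pull1 x.1 (rtype x.1 x.2.2) (rstep x).2.2) W := by
      rw [e1]; exact hT
    refine ⟨_, hT'.step (topL_ne_botL hirr hm) hpos', ?_⟩
    rw [lens_update, hW]
    rfl

theorem Tower.trans {s0 : St m} {l0 : Fin (m + 1) → ℝ} (hl0 : l0 ∈ Pos m) {s : St m}
    {l : Fin (m + 1) → ℝ} {W : Fin (m + 1) → List (Fin (m + 1))} (hT : Tower s0 l0 s l W)
    (j : Fin (m + 1)) (i : ℕ) (hi : i ≤ (W j).length) :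
    ∃ t : ℝ, ∀ x ∈ piece s.1 l j, (iet s0.1 s0.2 l0)^[i] x = x + t := by
  induction i with
  | zero => exact ⟨0, fun x _ => by simp⟩
  | succ i ih =>
    obtain ⟨t, ht⟩ := ih (by omega)
    refine ⟨t + (left s0.2 l0 (W j)[i] - left s0.1 l0 (W j)[i]), fun x hx => ?_⟩
    rw [Function.iterate_succ_apply', iet_eq hl0 (hT.orbit j x hx i (by omega)), ht x hx]
    ring

/-! ### Linearity of `qPath` -/

theorem pull_apply (w : List Bool) (s : St m) (l : Fin (m + 1) → ℝ) (i : Fin (m + 1)) :
    pull s w l i = ∑ j, qPath s w (Pi.single i 1) j * l j := by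
  rw [dual]
  simp [Pi.single_apply]

theorem qPath_apply (w : List Bool) (s : St m) (q : Fin (m + 1) → ℝ) (j : Fin (m + 1)) :
    qPath s w q j = ∑ i, q i * qPath s w (Pi.single i 1) j := by
  have h1 := dual w s q (Pi.single j 1)
  have h2 : ∑ j', qPath s w q j' * (Pi.single j 1 : Fin (m + 1) → ℝ) j' = qPath s w q j := by
    simp [Pi.single_apply]
  rw [← h2, h1]
  apply Finset.sum_congr rfl
  intro i _
  rw [pull_apply]
  simp [Pi.single_apply]

theorem qPath_nat (w : List Bool) : ∀ (s : St m) (q : Fin (m + 1) → ℝ),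
    (∀ j, ∃ n : ℕ, q j = n) → ∀ j, ∃ n : ℕ, qPath s w q j = n := by
  induction w with
  | nil => intro s q h; exact h
  | cons b w ih =>
    intro s q h
    apply ih
    intro j
    by_cases hj : j = los s b
    · subst hj
      obtain ⟨a, ha⟩ := h (los s b)
      obtain ⟨c, hc⟩ := h (win s b)
      exact ⟨a + c, by rw [upq_los, ha, hc]; push_cast; ring⟩
    · rw [upq_of_ne q hj]; exact h j

theorem qPath_single_ge_one (w : List Bool) (s : St m) (i j : Fin (m + 1))
    (h : 0 < qPath s w (Pi.single i 1) j) : 1 ≤ qPath s w (Pi.single i 1) j := by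
  obtain ⟨n, hn⟩ := qPath_nat w s (Pi.single i 1) (fun k => by
    by_cases hk : k = i
    · subst hk; exact ⟨1, by simp⟩
    · exact ⟨0, by simp [hk]⟩) j
  rw [hn] at h ⊢
  have : 0 < n := by exact_mod_cast h
  exact_mod_cast this

/-- The choice of positive paths. -/
theorem exists_posChoice (m : ℕ) (hm : 0 < m) : ∃ (w : St m → List Bool) (B : ℝ), 1 ≤ B ∧
    (∀ s, Irr s → ∀ i j, 1 ≤ qPath s (w s) (Pi.single i 1) j) ∧
    (∀ s i j, qPath s (w s) (Pi.single i 1) j ≤ B) := by
  classical
  have h1 : ∀ s : St m, ∃ w, Irr s → ∀ i j, 0 < qPath s w (Pi.single i 1) j := by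
    intro s
    by_cases hs : Irr s
    · obtain ⟨w, hw⟩ := exists_pos_path hs hm
      exact ⟨w, fun _ => hw⟩
    · exact ⟨[], fun h => absurd h hs⟩
  choose w hw using h1
  obtain ⟨B, hB⟩ := (Set.finite_range (fun p : St m × Fin (m + 1) × Fin (m + 1) =>
    qPath p.1 (w p.1) (Pi.single p.2.1 1) p.2.2)).bddAbove
  refine ⟨w, max B 1, le_max_right _ _, fun s hs i j => ?_, fun s i j => ?_⟩
  · exact qPath_single_ge_one _ _ _ _ (hw s hs i j)
  · exact (hB ⟨(s, i, j), rfl⟩).trans (le_max_left _ _)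

/-- Growth of the heights. -/
theorem sum_heights (hm : 0 < m) (x : Full m) (hx : ∀ j, 1 ≤ x.2.1 j) (K : ℕ) :
    (∀ j, 1 ≤ (rstep^[K] x).2.1 j) ∧ (K : ℝ) ≤ ∑ j, (rstep^[K] x).2.1 j := by
  induction K with
  | zero =>
    refine ⟨hx, ?_⟩
    simp only [Nat.cast_zero, Function.iterate_zero, id_eq]
    exact Finset.sum_nonneg fun j _ => by linarith [hx j]
  | succ K ih =>
    rw [Function.iterate_succ_apply']
    obtain ⟨h1, h2⟩ := ih
    constructor
    · intro j
      exact (h1 j).trans (upq_ge (fun j => by linarith [h1 j]) j)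
    · show ((K + 1 : ℕ) : ℝ) ≤ ∑ j, upq _ _ _ j
      rw [sum_upq]
      push_cast
      linarith [h1 (win (rstep^[K] x).1 (rtype (rstep^[K] x).1 (rstep^[K] x).2.2))]

/-- **Construction of good towers.** -/
theorem exists_goodTower (m : ℕ) (hm : 0 < m) {C : ℝ} (hC : 1 ≤ C) :
    ∃ (γ : St m → List Bool) (c : ℝ), 0 < c ∧ ∀ s0 : St m, Irr s0 →
      ∀ l0 : Fin (m + 1) → ℝ, ∑ j, l0 j = 1 → (∀ K : ℕ,
        (rstep^[K] (s0, lens (fun j : Fin (m + 1) => [j]), l0)).2.2 ∈ Pos m ∧
        ∃ k, Good C γ (rstep^[k] (rstep^[K] (s0, lens (fun j : Fin (m + 1) => [j]), l0)))) →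
      ∀ ε : ℝ, 0 < ε → Nonempty (GoodTower (iet s0.1 s0.2 l0) (label s0.1 l0) c ε) := by
  obtain ⟨w, B, hB, hw1, hw2⟩ := exists_posChoice m hm
  have hm1 : (0 : ℝ) < m + 1 := by positivity
  refine ⟨fun s => w s ++ w (endSt s (w s)), 1 / (C * (m + 1) * B), by positivity, ?_⟩
  intro s0 hs0 l0 hl0 hgood ε hε
  have hl0pos : l0 ∈ Pos m := (hgood 0).1
  -- choose the time
  obtain ⟨K0, hK0⟩ := exists_nat_gt (C * (m + 1) / ε)
  obtain ⟨-, k, hk⟩ := hgood K0
  rw [← Function.iterate_add_apply] at hk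
  set x0 : Full m := (s0, lens (fun j : Fin (m + 1) => [j]), l0) with hx0
  set K := k + K0 with hK
  obtain ⟨W, hT, hW⟩ := exists_tower hm hs0 (fun K => (hgood K).1) K
  set x := rstep^[K] x0 with hx
  have hxirr : Irr x.1 := rstep_iterate_irr hs0 K
  have hlenge : ∀ j, 1 ≤ x0.2.1 j := fun j => by simp [hx0, lens]
  obtain ⟨hq1, hqsum⟩ := sum_heights hm x0 hlenge K
  rw [← hx] at hq1 hqsum
  obtain ⟨hbal, l2, hl2, hpull⟩ := hk
  rw [pull_append] at hpull
  set s1 := endSt x.1 (w x.1) with hs1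
  have hs1irr : Irr s1 := hxirr.endSt _
  set l1 := pull s1 (w s1) l2 with hl1
  have hl1pos : l1 ∈ Pos m := pull_mem_Pos _ _ hl2
  have hTx : Tower s0 l0 x.1 (pull x.1 (w x.1) l1) W := by rw [hpull]; exact hT
  obtain ⟨W1, hT1, hW1⟩ := Tower.path (w x.1) hm hxirr hl1pos hTx
  -- first letter at time K
  set j0 : Fin (m + 1) := x.1.1.symm 0 with hj0
  have hj0pos : (x.1.1 j0 : ℕ) = 0 := by simp [hj0]
  set len := ∑ j, l1 j with hlen
  have hlenpos : 0 < len := Finset.sum_pos (fun j _ => hl1pos j) ⟨j0, Finset.mem_univ _⟩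
  -- comparison of lengths
  have hcomp : ∀ (s : St m), Irr s → ∀ l ∈ Pos m, ∀ i, ∑ j, l j ≤ pull s (w s) l i ∧
      pull s (w s) l i ≤ B * ∑ j, l j := by
    intro s hs l hl i
    rw [pull_apply, Finset.mul_sum]
    constructor
    · apply Finset.sum_le_sum
      intro j _
      have := hw1 s hs i j
      have := hl j
      nlinarith
    · apply Finset.sum_le_sum
      intro j _
      exact mul_le_mul_of_nonneg_right (hw2 s i j) (hl j).le
  have hsumcomp : ∀ (s : St m), Irr s → ∀ l ∈ Pos m,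
      ∑ i, pull s (w s) l i ≤ (m + 1) * (B * ∑ j, l j) := by
    intro s hs l hl
    calc ∑ i, pull s (w s) l i ≤ ∑ _i : Fin (m + 1), B * ∑ j, l j :=
          Finset.sum_le_sum fun i _ => (hcomp s hs l hl i).2
      _ = (m + 1) * (B * ∑ j, l j) := by
          rw [Finset.sum_const, nsmul_eq_mul, Finset.card_univ, Fintype.card_fin]; push_cast; ring
  set N := (W j0).length with hN
  have hNq : (N : ℝ) = x.2.1 j0 := by rw [← hW]; rfl
  have hNpos : 0 < N := hT.ne_nil j0
  have hN0 : (0 : ℝ) < N := by exact_mod_cast hNpos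
  have hqN : ∀ j, x.2.1 j ≤ C * N := fun j => by rw [hNq]; exact hbal j j0
  -- heights at the later stage
  have hq1lo : ∀ j, (N : ℝ) ≤ ((W1 j).length : ℝ) := by
    intro j
    have h1 : ((W1 j).length : ℝ) = ∑ i, x.2.1 i * qPath x.1 (w x.1) (Pi.single i 1) j := by
      rw [← qPath_apply, ← hW, ← hW1]; rfl
    rw [h1]
    have h2 : x.2.1 j0 * qPath x.1 (w x.1) (Pi.single j0 1) j ≤
        ∑ i, x.2.1 i * qPath x.1 (w x.1) (Pi.single i 1) j := by
      apply Finset.single_le_sum (f := fun i => x.2.1 i * qPath x.1 (w x.1) (Pi.single i 1) j)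
        _ (Finset.mem_univ j0)
      intro i _
      have := hq1 i
      have := hw1 x.1 hxirr i j
      positivity
    have h3 := hw1 x.1 hxirr j0 j
    rw [← hNq] at h2
    nlinarith
  have hq1hi : ∀ j, ((W1 j).length : ℝ) ≤ C * (m + 1) * B * N := by
    intro j
    have h1 : ((W1 j).length : ℝ) = ∑ i, x.2.1 i * qPath x.1 (w x.1) (Pi.single i 1) j := by
      rw [← qPath_apply, ← hW, ← hW1]; rfl
    rw [h1]
    calc ∑ i, x.2.1 i * qPath x.1 (w x.1) (Pi.single i 1) j
        ≤ ∑ _i : Fin (m + 1), (C * N) * B := by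
          apply Finset.sum_le_sum
          intro i _
          have h4 := hq1 i
          have h5 := hw1 x.1 hxirr i j
          have h6 := hw2 x.1 i j
          exact mul_le_mul (hqN i) h6 (by linarith) (by positivity)
      _ = C * (m + 1) * B * N := by
          rw [Finset.sum_const, nsmul_eq_mul, Finset.card_univ, Fintype.card_fin]; push_cast; ring
  have htot1 : ∑ j, ((W1 j).length : ℝ) * l1 j = 1 := by rw [hT1.total, hl0]
  -- len * N ≤ 1
  have hNlen1 : N * len ≤ 1 := by
    rw [← htot1, hlen, Finset.mul_sum]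
    exact Finset.sum_le_sum fun j _ => mul_le_mul_of_nonneg_right (hq1lo j) (hl1pos j).le
  have hN1 : (1 : ℝ) ≤ N := by exact_mod_cast hNpos
  have hlen_le_one : len ≤ 1 := by nlinarith
  -- N is large
  have hNlarge : (K : ℝ) ≤ C * (m + 1) * N := by
    calc (K : ℝ) ≤ ∑ j, x.2.1 j := hqsum
      _ ≤ ∑ _j : Fin (m + 1), C * N := Finset.sum_le_sum fun j _ => hqN j
      _ = C * (m + 1) * N := by
          rw [Finset.sum_const, nsmul_eq_mul, Finset.card_univ, Fintype.card_fin]; push_cast; ring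
  have hlen_le : len ≤ ε := by
    have h1 : C * (m + 1) < ε * K0 := by
      rw [div_lt_iff₀ hε] at hK0; linarith
    have h2 : (K0 : ℝ) ≤ K := by rw [hK]; push_cast; linarith [Nat.cast_nonneg (α := ℝ) k]
    have h3 : C * (m + 1) < ε * (C * (m + 1) * N) := by
      have : ε * (K0 : ℝ) ≤ ε * (C * (m + 1) * N) :=
        mul_le_mul_of_nonneg_left (h2.trans hNlarge) hε.le
      linarith
    have h4 : 1 < ε * N := by
      have h5 : 0 < C * (m + 1) := by positivity
      by_contra hcon
      push Not at hcon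
      nlinarith
    by_contra hcon
    push Not at hcon
    have : ε * N < len * N := by nlinarith
    nlinarith
  -- the sum of the lengths at time K
  have hsumK : ∑ j, x.2.2 j ≤ (m + 1) * (B * len) := by
    rw [← hpull]; exact hsumcomp x.1 hxirr l1 hl1pos
  have hNlen2 : 1 ≤ C * (m + 1) * B * (N * len) := by
    have h1 : (1 : ℝ) = ∑ j, ((W j).length : ℝ) * x.2.2 j := by rw [hT.total, hl0]
    have h2 : ∑ j, ((W j).length : ℝ) * x.2.2 j ≤ ∑ j, (C * N) * x.2.2 j := by
      apply Finset.sum_le_sum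
      intro j _
      have h3 : ((W j).length : ℝ) = x.2.1 j := by rw [← hW]; rfl
      rw [h3]
      exact mul_le_mul_of_nonneg_right (hqN j) ((hgood K).1 j).le
    rw [← Finset.mul_sum] at h2
    calc (1 : ℝ) ≤ C * N * ∑ j, x.2.2 j := by rw [h1]; exact h2
      _ ≤ C * N * ((m + 1) * (B * len)) := by gcongr
      _ = C * (m + 1) * B * (N * len) := by ring
  have hpieceK : Ico 0 len ⊆ piece x.1.1 x.2.2 j0 := by
    rintro y ⟨hy1, hy2⟩
    unfold piece
    rw [left_first hj0pos]
    refine ⟨hy1, ?_⟩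
    have := (hcomp x.1 hxirr l1 hl1pos j0).1
    rw [hpull] at this
    linarith
  have hpiece1 : ∀ j, piece s1.1 l1 j = Ico (left s1.1 l1 j) (left s1.1 l1 j + l1 j) :=
    fun j => rfl
  refine ⟨⟨len, hlenpos, hlen_le, hlen_le_one, N, hNpos, ?_, W1, hT1.nielsen,
    left s1.1 l1, l1, hl1pos, ?_, ?_, ?_, ?_, ?_, ?_, ?_, ?_, ?_, ?_, ?_, ?_, ?_, htot1⟩⟩
  · rw [div_le_iff₀ (by positivity)]
    linarith
  · intro j
    have h1 := (hcomp s1 hs1irr l2 hl2 j).1
    have h2 := hsumcomp s1 hs1irr l2 hl2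
    rw [← hl1] at h1 h2
    rw [div_mul_eq_mul_div, one_mul, div_le_iff₀ (by positivity)]
    have h3 : 0 < l1 j := hl1pos j
    have h4 : len ≤ (m + 1) * (B * l1 j) := h2.trans (by gcongr)
    have h5 : (m + 1) * (B * l1 j) ≤ C * ((m + 1) * (B * l1 j)) := by
      have : 0 ≤ (m + 1) * (B * l1 j) := by positivity
      nlinarith
    calc len ≤ C * ((m + 1) * (B * l1 j)) := h4.trans h5
      _ = l1 j * (C * (m + 1) * B) := by ring
  · intro j
    exact piece_sub hl1pos j
  · intro y hy
    exact exists_piece hl1pos hy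
  · intro i j hij
    exact piece_disj hl1pos hij
  · intro j
    exact_mod_cast hq1lo j
  · intro j
    rw [div_mul_eq_mul_div, one_mul, div_le_iff₀ (by positivity)]
    have := hq1hi j
    linarith
  · intro j i hi
    exact hT1.trans hl0pos j i hi
  · intro j y hy i hi
    rcases Nat.lt_or_ge i (W1 j).length with h | h
    · have := piece_sub hl0pos _ (hT1.orbit j y hy i h)
      rwa [hl0] at this
    · have hii : i = (W1 j).length := le_antisymm hi h
      rw [hii, hT1.ret j y hy]
      have := piece_sub hl1pos _ (iet_mem (pb := s1.2) hl1pos hy)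
      exact ⟨this.1, this.2.trans_le hlen_le_one⟩
  · intro j y hy i hi
    exact label_eq hl0pos (hT1.orbit j y hy i hi)
  · intro j y hy
    rw [hT1.ret j y hy]
    exact piece_sub hl1pos _ (iet_mem (pb := s1.2) hl1pos hy)
  · intro j y hy i hi0 hi
    exact hT1.first j y hy i hi0 hi
  · intro i hi
    obtain ⟨t, ht⟩ := hT.trans hl0pos j0 i hi
    exact ⟨t, fun y hy => ht y (hpieceK hy)⟩
  · intro i hi y hy z hz
    rw [label_eq hl0pos (hT.orbit j0 y (hpieceK hy) i hi),
      label_eq hl0pos (hT.orbit j0 z (hpieceK hz) i hi)]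

end SkewIET
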